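import Mathlib

/-!
# Global holomorphic preimages over a disc
-/

set_option autoImplicit false
open Set Filter Topology Metric

namespace Pool.Agent.Zk29.Hy

/-- Straightening of the zero set near a regular point. -/
theorem local_branch {F : ℂ × ℂ → ℂ} {p : ℂ × ℂ} {L : ℂ × ℂ →L[ℂ] ℂ} (hF : HasStrictFDerivAt F L p)
    (hne : L (0, 1) ≠ 0) : ∃ e : OpenPartialHomeomorph (ℂ × ℂ) (ℂ × ℂ), p ∈ e.source ∧
      (∀ q, e q = (q.1, F q)) ∧ DifferentiableAt ℂ e.symm (e p) := by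
  obtain ⟨M, hM⟩ : ∃ M : ℂ × ℂ →L[ℂ] ℂ × ℂ, M = (ContinuousLinearMap.fst ℂ ℂ ℂ).prod L := ⟨_, rfl⟩
  obtain ⟨N, hN⟩ : ∃ N : ℂ × ℂ →L[ℂ] ℂ × ℂ, N = (ContinuousLinearMap.fst ℂ ℂ ℂ).prod
    ((L (0, 1))⁻¹ • (ContinuousLinearMap.snd ℂ ℂ ℂ -
      L.comp ((ContinuousLinearMap.inl ℂ ℂ ℂ).comp (ContinuousLinearMap.fst ℂ ℂ ℂ)))) := ⟨_, rfl⟩
  have hL : ∀ a b : ℂ, L (a, b) = L (a, 0) + b * L (0, 1) := by
    intro a b
    have h1 : ((a, b) : ℂ × ℂ) = (a, 0) + b • ((0 : ℂ), (1 : ℂ)) := by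
      simp
    rw [h1, map_add, map_smul, smul_eq_mul]
  have h1 : Function.LeftInverse N M := by
    rintro ⟨a, b⟩
    rw [hM, hN]
    simp only [ContinuousLinearMap.prod_apply, ContinuousLinearMap.coe_fst', Prod.mk.injEq,
      smul_apply, sub_apply,
      ContinuousLinearMap.coe_snd', ContinuousLinearMap.comp_apply, ContinuousLinearMap.inl_apply,
      smul_eq_mul, true_and]
    rw [hL a b]
    field_simp
    ring
  have h2 : Function.RightInverse N M := by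
    rintro ⟨a, b⟩
    rw [hM, hN]
    simp only [ContinuousLinearMap.prod_apply, ContinuousLinearMap.coe_fst', Prod.mk.injEq,
      smul_apply, sub_apply,
      ContinuousLinearMap.coe_snd', ContinuousLinearMap.comp_apply, ContinuousLinearMap.inl_apply,
      smul_eq_mul, true_and]
    rw [hL]
    field_simp
    ring
  have h3 : HasStrictFDerivAt (fun q : ℂ × ℂ => (q.1, F q))
      ((ContinuousLinearEquiv.equivOfInverse M N h1 h2 : (ℂ × ℂ) ≃L[ℂ] (ℂ × ℂ)) :
        ℂ × ℂ →L[ℂ] ℂ × ℂ) p := by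
    have h4 := (hasStrictFDerivAt_fst (𝕜 := ℂ) (p := p)).prodMk hF
    have h5 : ((ContinuousLinearEquiv.equivOfInverse M N h1 h2 : (ℂ × ℂ) ≃L[ℂ] (ℂ × ℂ)) :
        ℂ × ℂ →L[ℂ] ℂ × ℂ) = (ContinuousLinearMap.fst ℂ ℂ ℂ).prod L := by
      ext x <;> simp [hM, ContinuousLinearEquiv.equivOfInverse]
    rw [h5]
    exact h4
  refine ⟨h3.toOpenPartialHomeomorph _, h3.mem_toOpenPartialHomeomorph_source, fun q => rfl, ?_⟩
  exact h3.to_localInverse.hasFDerivAt.differentiableAt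

variable {f : ℂ → ℂ → ℂ} {u : ℂ → ℂ} {U : Set ℂ} {r : ℝ}

/-- A regular point of the equation `f t z = u t`. -/
theorem local_sol (hU : IsOpen U)
    (hf : ∀ t ∈ ball (0 : ℂ) r, ∀ z ∈ closure U,
      ContDiffAt ℂ 1 (fun p : ℂ × ℂ => f p.1 p.2) (t, z))
    (hu : DifferentiableOn ℂ u (ball 0 r))
    (hne : ∀ t ∈ ball (0 : ℂ) r, ∀ z ∈ U, f t z = u t → deriv (f t) z ≠ 0)
    {t₀ z₀ : ℂ} (ht₀ : t₀ ∈ ball (0 : ℂ) r) (hz₀ : z₀ ∈ U) (h0 : f t₀ z₀ = u t₀) :
    ∃ e : OpenPartialHomeomorph (ℂ × ℂ) (ℂ × ℂ), (t₀, z₀) ∈ e.source ∧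
      e.source ⊆ ball (0 : ℂ) r ×ˢ U ∧
      (∀ q, e q = (q.1, f q.1 q.2 - u q.1)) ∧ DifferentiableAt ℂ e.symm (t₀, 0) := by
  have h1 : HasStrictFDerivAt (fun p : ℂ × ℂ => f p.1 p.2)
      (fderiv ℂ (fun p : ℂ × ℂ => f p.1 p.2) (t₀, z₀)) (t₀, z₀) :=
    (hf t₀ ht₀ z₀ (subset_closure hz₀)).hasStrictFDerivAt (by norm_num)
  have h2 : HasStrictDerivAt u (deriv u t₀) t₀ := by
    have h3 : AnalyticAt ℂ u t₀ := hu.analyticAt (isOpen_ball.mem_nhds ht₀)
    exact h3.hasStrictDerivAt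
  have h3 : HasStrictFDerivAt (fun p : ℂ × ℂ => u p.1)
      ((ContinuousLinearMap.toSpanSingleton ℂ (deriv u t₀)).comp (ContinuousLinearMap.fst ℂ ℂ ℂ))
      (t₀, z₀) :=
    HasStrictFDerivAt.comp (g := u) (f := fun p : ℂ × ℂ => p.1) (t₀, z₀)
      h2.hasStrictFDerivAt hasStrictFDerivAt_fst
  have h4 := h1.sub h3
  have hpart : deriv (f t₀) z₀ = (fderiv ℂ (fun p : ℂ × ℂ => f p.1 p.2) (t₀, z₀)) (0, 1) := by
    have h5 : HasFDerivAt (fun z : ℂ => ((t₀, z) : ℂ × ℂ)) (ContinuousLinearMap.inr ℂ ℂ ℂ) z₀ :=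
      hasFDerivAt_prodMk_right t₀ z₀
    have h6 := HasFDerivAt.comp (g := fun p : ℂ × ℂ => f p.1 p.2) z₀ h1.hasFDerivAt h5
    have h7 : deriv (f t₀) z₀ = ((fderiv ℂ (fun p : ℂ × ℂ => f p.1 p.2) (t₀, z₀)).comp
        (ContinuousLinearMap.inr ℂ ℂ ℂ)) 1 := h6.hasDerivAt.deriv
    rw [h7]
    simp
  obtain ⟨e, he1, he2, he3⟩ := local_branch h4 (by
    rw [ContinuousLinearMap.sub_apply, ← hpart]
    simp only [ContinuousLinearMap.comp_apply, ContinuousLinearMap.coe_fst', map_zero, sub_zero]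
    exact hne t₀ ht₀ z₀ hz₀ h0)
  have hop : IsOpen (ball (0 : ℂ) r ×ˢ U) := isOpen_ball.prod hU
  refine ⟨e.restrOpen _ hop, ?_, ?_, fun q => ?_, ?_⟩
  · rw [OpenPartialHomeomorph.restrOpen_source]
    exact ⟨he1, ht₀, hz₀⟩
  · rw [OpenPartialHomeomorph.restrOpen_source]
    exact inter_subset_right
  · exact he2 q
  · have h5 : e (t₀, z₀) = (t₀, 0) := by
      rw [he2]
      change (t₀, f t₀ z₀ - u t₀) = _
      rw [h0, sub_self]
    rw [h5] at he3
    exact he3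

/-- **Global lifts.** -/
theorem lift_one (hr : 0 < r) (hU : IsOpen U) (hUb : Bornology.IsBounded U)
    (hf : ∀ t ∈ ball (0 : ℂ) r, ∀ z ∈ closure U,
      ContDiffAt ℂ 1 (fun p : ℂ × ℂ => f p.1 p.2) (t, z))
    (hbd : ∀ t ∈ ball (0 : ℂ) r, ∀ z ∈ closure U, z ∉ U → f t z ∉ closure U)
    (hu : DifferentiableOn ℂ u (ball 0 r)) (huU : ∀ t ∈ ball (0 : ℂ) r, u t ∈ U)
    (hne : ∀ t ∈ ball (0 : ℂ) r, ∀ z ∈ U, f t z = u t → deriv (f t) z ≠ 0)
    {z₀ : ℂ} (hz₀ : z₀ ∈ U) (h0 : f 0 z₀ = u 0) :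
    ∃ w : ℂ → ℂ, w 0 = z₀ ∧ DifferentiableOn ℂ w (ball 0 r) ∧
      ∀ t ∈ ball (0 : ℂ) r, w t ∈ U ∧ f t (w t) = u t := by
  classical
  have hmem0 : (0 : ℂ) ∈ ball (0 : ℂ) r := mem_ball_self hr
  let X := {t : ℂ // t ∈ ball (0 : ℂ) r}
  let E := {p : ℂ × ℂ // p.1 ∈ ball (0 : ℂ) r ∧ p.2 ∈ U ∧ f p.1 p.2 = u p.1}
  let π : E → X := fun e => ⟨e.1.1, e.2.1⟩
  have hπc : Continuous π := by
    apply Continuous.subtype_mk
    exact continuous_fst.comp continuous_subtype_val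
  -- the map is proper
  have hprop : IsProperMap π := by
    rw [isProperMap_iff_isCompact_preimage]
    refine ⟨hπc, fun K hK => ?_⟩
    rw [Subtype.isCompact_iff]
    obtain ⟨K', hK'⟩ : ∃ K' : Set ℂ, K' = Subtype.val '' K := ⟨_, rfl⟩
    have hK'c : IsCompact K' := by rw [hK']; exact hK.image continuous_subtype_val
    have hK'D : K' ⊆ ball (0 : ℂ) r := by
      rw [hK']
      rintro _ ⟨x, -, rfl⟩
      exact x.2
    have himg : (Subtype.val '' (π ⁻¹' K) : Set (ℂ × ℂ)) =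
        {p ∈ K' ×ˢ closure U | f p.1 p.2 - u p.1 = 0} := by
      ext p
      constructor
      · rintro ⟨e, he, rfl⟩
        refine ⟨⟨?_, subset_closure e.2.2.1⟩, ?_⟩
        · rw [hK']
          exact ⟨π e, he, rfl⟩
        · rw [e.2.2.2, sub_self]
      · rintro ⟨⟨h1, h2⟩, h3⟩
        have h4 : p.1 ∈ ball (0 : ℂ) r := hK'D h1
        have h5 : f p.1 p.2 = u p.1 := sub_eq_zero.1 h3
        have h6 : p.2 ∈ U := by
          by_contra h7
          exact hbd p.1 h4 p.2 h2 h7 (by rw [h5]; exact subset_closure (huU _ h4))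
        refine ⟨⟨p, h4, h6, h5⟩, ?_, rfl⟩
        rw [hK'] at h1
        obtain ⟨x, hx, hxp⟩ := h1
        have : π ⟨p, h4, h6, h5⟩ = x := Subtype.ext hxp.symm
        rw [mem_preimage, this]
        exact hx
    rw [himg]
    have hcl : IsCompact (K' ×ˢ closure U) := hK'c.prod hUb.isCompact_closure
    have hco : ContinuousOn (fun p : ℂ × ℂ => f p.1 p.2 - u p.1) (K' ×ˢ closure U) := by
      rintro ⟨t, z⟩ ⟨h1, h2⟩
      have h3 := (hf t (hK'D h1) z h2).continuousAt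
      have h4 : ContinuousAt (fun p : ℂ × ℂ => u p.1) (t, z) :=
        ContinuousAt.comp (g := u) (f := fun p : ℂ × ℂ => p.1)
          ((hu.continuousOn).continuousAt (isOpen_ball.mem_nhds (hK'D h1))) continuousAt_fst
      exact (h3.sub h4).continuousWithinAt
    have h7 := hco.preimage_isClosed_of_isClosed hcl.isClosed (isClosed_singleton (x := (0 : ℂ)))
    exact hcl.of_isClosed_subset h7 inter_subset_left
  -- the map is a local homeomorphism
  have hloc : IsLocalHomeomorph π := by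
    rw [isLocalHomeomorph_iff_isOpenEmbedding_restrict]
    rintro ⟨⟨t₀, z₁⟩, ht₀, hz₁, h1⟩
    obtain ⟨e, he1, he2, he3, -⟩ := local_sol hU hf hu hne ht₀ hz₁ h1
    let V : Set E := {v | (v : ℂ × ℂ) ∈ e.source}
    have hVo : IsOpen V := e.open_source.preimage continuous_subtype_val
    refine ⟨V, hVo.mem_nhds he1, ?_⟩
    let X' : Set X := {x | (((x : ℂ), (0 : ℂ)) : ℂ × ℂ) ∈ e.target}
    have hX'o : IsOpen X' := by
      apply e.open_target.preimage
      exact continuous_subtype_val.prodMk continuous_const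
    have hev : ∀ v ∈ V, e (v : ℂ × ℂ) = ((v : ℂ × ℂ).1, 0) := by
      intro v _
      rw [he3, v.2.2.2, sub_self]
    have hsy : ∀ x ∈ X', (e.symm ((x : ℂ), 0)) ∈ e.source ∧ (e.symm ((x : ℂ), 0)).1 = (x : ℂ) ∧
        f (e.symm ((x : ℂ), 0)).1 (e.symm ((x : ℂ), 0)).2 = u (e.symm ((x : ℂ), 0)).1 := by
      intro x hx
      have h2 := e.map_target hx
      have h3 := e.right_inv hx
      rw [he3] at h3
      refine ⟨h2, congrArg Prod.fst h3, ?_⟩
      have h4 := congrArg Prod.snd h3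
      exact sub_eq_zero.1 h4
    let h : V ≃ₜ X' :=
      { toFun := fun v => ⟨π v.1, by
          change ((v.1 : ℂ × ℂ).1, (0 : ℂ)) ∈ e.target
          rw [← hev v.1 v.2]
          exact e.map_source v.2⟩
        invFun := fun x => ⟨⟨e.symm (((x : X) : ℂ), (0 : ℂ)), (he2 (hsy x.1 x.2).1).1,
          (he2 (hsy x.1 x.2).1).2, (hsy x.1 x.2).2.2⟩, (hsy x.1 x.2).1⟩
        left_inv := by
          rintro ⟨v, hv⟩
          apply Subtype.ext
          apply Subtype.ext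
          change e.symm ((v : ℂ × ℂ).1, 0) = (v : ℂ × ℂ)
          rw [← hev v hv]
          exact e.left_inv hv
        right_inv := by
          rintro ⟨x, hx⟩
          apply Subtype.ext
          apply Subtype.ext
          exact (hsy x hx).2.1
        continuous_toFun := by
          apply Continuous.subtype_mk
          exact hπc.comp continuous_subtype_val
        continuous_invFun := by
          apply Continuous.subtype_mk
          apply Continuous.subtype_mk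
          have h2 : ContinuousOn e.symm e.target := e.continuousOn_symm
          refine h2.comp_continuous ?_ (fun x => x.2)
          exact (continuous_subtype_val.comp continuous_subtype_val).prodMk continuous_const }
    have h2 : V.domRestrict π = Subtype.val ∘ h := rfl
    rw [h2]
    exact hX'o.isOpenEmbedding_subtypeVal.comp h.isOpenEmbedding
  have hcov : IsCoveringMap π := by
    rw [isCoveringMap_iff_isCoveringMapOn_univ]
    refine hprop.isClosedMap.isCoveringMapOn_of_isLocalHomeomorphOn (fun x _ => ?_) ?_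
    · exact (hprop.isCompact_preimage isCompact_singleton).finite
        (.of_openPartialHomeomorph π subset_rfl fun e _ => by
          obtain ⟨φ, h1, h2⟩ := hloc e
          exact ⟨φ, h1, h2.symm⟩)
    · exact hloc.isLocalHomeomorphOn.mono (subset_univ _)
  -- the lift of the identity
  haveI : ContractibleSpace X := (convex_ball (0 : ℂ) r).contractibleSpace ⟨0, hmem0⟩
  haveI : LocallyPathConnectedSpace X := (convex_ball (0 : ℂ) r).locallyPathConnectedSpace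
  let a₀ : X := ⟨0, hmem0⟩
  let e₀ : E := ⟨(0, z₀), hmem0, hz₀, h0⟩
  obtain ⟨F, ⟨hF0, hF⟩, -⟩ := hcov.existsUnique_continuousMap_lifts (ContinuousMap.id X) a₀ e₀ rfl
  have hF1 : ∀ x : X, ((F x : E) : ℂ × ℂ).1 = (x : ℂ) := by
    intro x
    have h1 := congrFun hF x
    exact congrArg Subtype.val h1
  obtain ⟨w, hw⟩ : ∃ w : ℂ → ℂ, ∀ t (ht : t ∈ ball (0 : ℂ) r), w t = ((F ⟨t, ht⟩ : E) : ℂ × ℂ).2 :=
    ⟨fun t => if ht : t ∈ ball (0 : ℂ) r then ((F ⟨t, ht⟩ : E) : ℂ × ℂ).2 else 0,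
      fun t ht => dif_pos ht⟩
  have hpair : ∀ t (ht : t ∈ ball (0 : ℂ) r), ((F ⟨t, ht⟩ : E) : ℂ × ℂ) = (t, w t) := by
    intro t ht
    apply Prod.ext
    · exact hF1 ⟨t, ht⟩
    · exact (hw t ht).symm
  have hsol : ∀ t ∈ ball (0 : ℂ) r, w t ∈ U ∧ f t (w t) = u t := by
    intro t ht
    have h1 := (F ⟨t, ht⟩).2
    rw [hpair t ht] at h1
    exact h1.2
  refine ⟨w, ?_, ?_, hsol⟩
  · have h1 := hpair 0 hmem0
    have h2 : F ⟨0, hmem0⟩ = e₀ := hF0
    rw [h2] at h1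
    exact (congrArg Prod.snd h1).symm
  · intro t₀ ht₀
    apply DifferentiableAt.differentiableWithinAt
    obtain ⟨hz₁, h1⟩ := hsol t₀ ht₀
    obtain ⟨e, he1, he2, he3, he4⟩ := local_sol hU hf hu hne ht₀ hz₁ h1
    have hFc : Continuous fun x : X => ((F x : E) : ℂ × ℂ) :=
      continuous_subtype_val.comp F.continuous
    have h2 : ∀ᶠ x : X in 𝓝 ⟨t₀, ht₀⟩, ((F x : E) : ℂ × ℂ) ∈ e.source := by
      apply hFc.continuousAt.eventually_mem
      rw [hpair t₀ ht₀]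
      exact e.open_source.mem_nhds he1
    have h3 : ∀ᶠ t in 𝓝 t₀, (t, w t) ∈ e.source := by
      rw [nhds_subtype_eq_comap, eventually_comap] at h2
      filter_upwards [h2, isOpen_ball.mem_nhds ht₀] with t ht ht'
      have h4 := ht ⟨t, ht'⟩ rfl
      rwa [hpair t ht'] at h4
    have h5 : w =ᶠ[𝓝 t₀] fun t => (e.symm (t, 0)).2 := by
      filter_upwards [h3, isOpen_ball.mem_nhds ht₀] with t ht ht'
      have h6 : e (t, w t) = (t, 0) := by
        rw [he3]
        change (t, f t (w t) - u t) = _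
        rw [(hsol t ht').2, sub_self]
      rw [← h6, e.left_inv ht]
    have h7 : DifferentiableAt ℂ (fun t : ℂ => (e.symm (t, 0)).2) t₀ := by
      have h8 : DifferentiableAt ℂ (fun t : ℂ => ((t, (0 : ℂ)) : ℂ × ℂ)) t₀ := by fun_prop
      have h9 : DifferentiableAt ℂ (fun t : ℂ => e.symm (t, 0)) t₀ :=
        DifferentiableAt.comp (g := e.symm) (f := fun t : ℂ => ((t, (0 : ℂ)) : ℂ × ℂ)) t₀ he4 h8
      exact h9.snd
    exact h7.congr_of_eventuallyEq h5

end Pool.Agent.Zk29.Hy
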