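import Pool.Agent.Zk29.Hy.B1

/-!
# Iterated lifts and functions without zeros
-/

set_option autoImplicit false
open Set Filter Topology Metric

namespace Pool.Agent.Zk29.Hy

/-- The derivative of a function without zeros. -/
theorem nonvan {g : ℂ → ℂ} {r M : ℝ} (hr : 0 < r) (hg : DifferentiableOn ℂ g (ball 0 r))
    (h0 : ∀ t ∈ ball (0 : ℂ) r, g t ≠ 0) (hM : ∀ t ∈ ball (0 : ℂ) r, ‖g t‖ ≤ M) (hM0 : ‖g 0‖ < M) :
    ‖deriv g 0‖ ≤ 4 / r * (‖g 0‖ * Real.log (M / ‖g 0‖)) := by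
  have hmem0 : (0 : ℂ) ∈ ball (0 : ℂ) r := mem_ball_self hr
  have hg0 : 0 < ‖g 0‖ := norm_pos_iff.2 (h0 0 hmem0)
  have hMp : 0 < M := hg0.trans hM0
  have hq : DifferentiableOn ℂ (fun z => deriv g z / g z) (ball 0 r) :=
    (hg.deriv isOpen_ball).div hg h0
  obtain ⟨F, hF⟩ := hq.isExactOn_ball
  obtain ⟨G, hG⟩ : ∃ G : ℂ → ℂ, G = fun z => F z - F 0 := ⟨_, rfl⟩
  have hGd : ∀ z ∈ ball (0 : ℂ) r, HasDerivAt G (deriv g z / g z) z := by
    intro z hz
    rw [hG]
    exact (hF z hz).sub_const _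
  have hG0 : G 0 = 0 := by rw [hG]; simp
  have hgd : ∀ z ∈ ball (0 : ℂ) r, HasDerivAt g (deriv g z) z := fun z hz =>
    (hg.differentiableAt (isOpen_ball.mem_nhds hz)).hasDerivAt
  -- `g = g 0 * exp G`
  have hconst : ∀ z ∈ ball (0 : ℂ) r, Complex.exp (-G z) * g z = g 0 := by
    have h1 : ∀ z ∈ ball (0 : ℂ) r, HasDerivAt (fun z => Complex.exp (-G z) * g z) 0 z := by
      intro z hz
      have h2 := ((hGd z hz).neg.cexp).mul (hgd z hz)
      refine h2.congr_deriv ?_
      have h3 := h0 z hz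
      field_simp
      ring
    have h2 : ∀ z ∈ ball (0 : ℂ) r, (fun z => Complex.exp (-G z) * g z) z =
        (fun z => Complex.exp (-G z) * g z) 0 := by
      intro z hz
      exact (convex_ball (0 : ℂ) r).is_const_of_fderivWithin_eq_zero (𝕜 := ℂ)
        (f := fun z => Complex.exp (-G z) * g z)
        (fun w hw => (h1 w hw).differentiableAt.differentiableWithinAt)
        (fun w hw => by
          rw [fderivWithin_of_isOpen isOpen_ball hw]
          have h3 := (h1 w hw).hasFDerivAt.fderiv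
          rw [h3]
          simp) hz hmem0
    intro z hz
    have h3 := h2 z hz
    simp only at h3
    rw [h3, hG0, neg_zero, Complex.exp_zero, one_mul]
  have hre : ∀ z ∈ ball (0 : ℂ) r, (G z).re = Real.log (‖g z‖ / ‖g 0‖) := by
    intro z hz
    have h1 := congrArg norm (hconst z hz)
    rw [norm_mul, Complex.norm_exp, Complex.neg_re] at h1
    have h2 : 0 < ‖g z‖ := norm_pos_iff.2 (h0 z hz)
    rw [← h1]
    have h3 : ‖g z‖ / (Real.exp (-(G z).re) * ‖g z‖) = Real.exp (G z).re := by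
      rw [Real.exp_neg]
      have := Real.exp_pos (G z).re
      field_simp
    rw [h3, Real.log_exp]
  obtain ⟨L, hL⟩ : ∃ L, L = Real.log (M / ‖g 0‖) := ⟨_, rfl⟩
  have hL0 : 0 < L := by
    rw [hL]
    apply Real.log_pos
    rw [lt_div_iff₀ hg0]
    linarith
  have hmap : MapsTo G (ball 0 r) {z | z.re ≤ L} := by
    intro z hz
    change (G z).re ≤ L
    rw [hre z hz, hL]
    apply Real.log_le_log
    · have : 0 < ‖g z‖ := norm_pos_iff.2 (h0 z hz)
      positivity
    · have := hM z hz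
      gcongr
  have hGdiff : DifferentiableOn ℂ G (ball 0 r) := fun z hz =>
    (hGd z hz).differentiableAt.differentiableWithinAt
  have hbound : ∀ z ∈ sphere (0 : ℂ) (r / 2), ‖G z‖ ≤ 2 * L := by
    intro z hz
    rw [mem_sphere_zero_iff_norm] at hz
    have hzr : z ∈ ball (0 : ℂ) r := by rw [mem_ball_zero_iff, hz]; linarith
    have h1 := Complex.borelCaratheodory_zero hL0 hGdiff hmap hr hzr hG0
    rw [hz] at h1
    refine h1.trans (le_of_eq ?_)
    field_simp
    ring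
  have hd : ‖deriv G 0‖ ≤ 2 * L / (r / 2) := by
    apply Complex.norm_deriv_le_of_forall_mem_sphere_norm_le (by linarith) _ hbound
    apply DifferentiableOn.diffContOnCl
    apply hGdiff.mono
    rw [closure_ball _ (by linarith)]
    exact closedBall_subset_ball (by linarith)
  have h1 : deriv g 0 = g 0 * deriv G 0 := by
    rw [(hGd 0 hmem0).deriv]
    have := h0 0 hmem0
    field_simp
  rw [h1, norm_mul, ← hL]
  calc ‖g 0‖ * ‖deriv G 0‖ ≤ ‖g 0‖ * (2 * L / (r / 2)) := by gcongr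
    _ = _ := by field_simp; ring

variable {f : ℂ → ℂ → ℂ} {U : Set ℂ} {r : ℝ}

/-- **Global holomorphic preimages under the iterates.** -/
theorem lift_iter (hr : 0 < r) (hU : IsOpen U) (hUb : Bornology.IsBounded U)
    (hf : ∀ t ∈ ball (0 : ℂ) r, ∀ z ∈ closure U,
      ContDiffAt ℂ 1 (fun p : ℂ × ℂ => f p.1 p.2) (t, z))
    (hbd : ∀ t ∈ ball (0 : ℂ) r, ∀ z ∈ closure U, z ∉ U → f t z ∉ closure U)
    {b : ℂ} (hb : b ∈ U)
    (hne : ∀ t ∈ ball (0 : ℂ) r, ∀ z ∈ U, ∀ i, (f t)^[i + 1] z = b → deriv (f t) z ≠ 0)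
    (k : ℕ) : ∀ z₀ : ℂ, (∀ l < k, (f 0)^[l] z₀ ∈ U) → (f 0)^[k] z₀ = b →
    ∃ w : ℂ → ℂ, w 0 = z₀ ∧ DifferentiableOn ℂ w (ball 0 r) ∧
      ∀ t ∈ ball (0 : ℂ) r, w t ∈ U ∧ (∀ l < k, (f t)^[l] (w t) ∈ U) ∧ (f t)^[k] (w t) = b := by
  induction k with
  | zero =>
    intro z₀ _ h
    have h1 : z₀ = b := h
    exact ⟨fun _ => b, h1.symm, differentiableOn_const b, fun t _ => ⟨hb, fun l hl => absurd hl
      (by omega), rfl⟩⟩
  | succ k ih =>
    intro z₀ h1 h2
    obtain ⟨u, hu0, hud, hu⟩ := ih (f 0 z₀) (fun l hl => by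
      have := h1 (l + 1) (by omega)
      rwa [Function.iterate_succ_apply] at this) (by rwa [Function.iterate_succ_apply] at h2)
    obtain ⟨w, hw0, hwd, hw⟩ := lift_one hr hU hUb hf hbd hud (fun t ht => (hu t ht).1)
      (fun t ht z hz hfz => hne t ht z hz k (by
        rw [Function.iterate_succ_apply, hfz]
        exact (hu t ht).2.2)) (h1 0 (by omega)) hu0.symm
    refine ⟨w, hw0, hwd, fun t ht => ⟨(hw t ht).1, fun l hl => ?_, ?_⟩⟩
    · rcases l with _ | l
      · exact (hw t ht).1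
      · rw [Function.iterate_succ_apply, (hw t ht).2]
        exact (hu t ht).2.1 l (by omega)
    · rw [Function.iterate_succ_apply, (hw t ht).2]
      exact (hu t ht).2.2

end Pool.Agent.Zk29.Hy
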