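import Pool.Agent.Zk29.Rat.Dom
import Pool.Agent.H792R2.CE.Core

/-!
# Trapping neighbourhoods
-/

set_option autoImplicit false
open Set Filter Topology Metric Polynomial
open scoped OnePoint

namespace Pool.Agent.Zk29.Hy

open Pool.Agent.H792R2.CE Pool.Agent.H792R2.CE.C2x Pool.Agent.Zk29.Rat
open Pool.Agent.Helper114.Herman

variable {P Q : ℂ[X]} {d : ℕ}

lemma att_of_iter (hcont : Continuous (sph d P Q)) {x : OnePoint ℂ} (n : ℕ)
    (h : Att d P Q ((sph d P Q)^[n] x)) : Att d P Q x := by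
  induction n generalizing x with
  | zero => exact h
  | succ n ih =>
    rw [Function.iterate_succ_apply] at h
    exact C2_step hcont (ih h)

/-- A trapping neighbourhood of an attracting cycle. -/
theorem trap_cycle (hcont : Continuous (sph d P Q)) {n : ℕ} (hn : 0 < n) {z : ℂ}
    (hfin : ∀ i : ℕ, (sph d P Q)^[i] (z : OnePoint ℂ) ≠ ∞)
    (hper : (sph d P Q)^[n] (z : OnePoint ℂ) = (z : OnePoint ℂ))
    (hder : ‖deriv ((rf P Q)^[n]) z‖ < 1) :
    ∃ V : Set (OnePoint ℂ), IsOpen V ∧ (z : OnePoint ℂ) ∈ V ∧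
      (∀ x ∈ closure V, sph d P Q x ∈ V) ∧ ∀ x ∈ V, Att d P Q x := by
  have horb := orbit hfin
  have hGz : (rf P Q)^[n] z = z := by
    have h1 := (horb n).1
    rw [hper, OnePoint.coe_eq_coe] at h1
    exact h1.symm
  have hQi : ∀ n, ∀ i < n, Q.eval ((rf P Q)^[i] z) ≠ 0 := fun _ i _ => (horb i).2
  have hd : HasDerivAt ((rf P Q)^[n]) (deriv ((rf P Q)^[n]) z) z :=
    (iter_diff n (hQi n)).hasDerivAt
  obtain ⟨lam, hlam1, hlam2⟩ := exists_between hder
  have hlam0 : 0 ≤ lam := (norm_nonneg _).trans hlam1.le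
  have ev1 : ∀ᶠ w in 𝓝 z, ‖(rf P Q)^[n] w - z‖ ≤ lam * ‖w - z‖ := by
    have h1 := (hasDerivAt_iff_isLittleO.1 hd).bound
      (show 0 < lam - ‖deriv ((rf P Q)^[n]) z‖ by linarith)
    filter_upwards [h1] with w hw
    rw [hGz] at hw
    have h2 : ‖(rf P Q)^[n] w - z‖ ≤ ‖(rf P Q)^[n] w - z - (w - z) • deriv ((rf P Q)^[n]) z‖ +
        ‖(w - z) • deriv ((rf P Q)^[n]) z‖ := by
      refine le_trans (le_of_eq ?_) (norm_add_le _ _)
      congr 1
      ring
    rw [norm_smul] at h2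
    calc ‖(rf P Q)^[n] w - z‖ ≤ (lam - ‖deriv ((rf P Q)^[n]) z‖) * ‖w - z‖ +
          ‖w - z‖ * ‖deriv ((rf P Q)^[n]) z‖ := h2.trans (add_le_add hw le_rfl)
      _ = lam * ‖w - z‖ := by ring
  have ev2 : ∀ᶠ w in 𝓝 z, ∀ i < n, Q.eval ((rf P Q)^[i] w) ≠ 0 := by
    have h1 : ∀ i ∈ Finset.range n, ∀ᶠ w in 𝓝 z, Q.eval ((rf P Q)^[i] w) ≠ 0 := by
      intro i _
      have h2 : ContinuousAt (fun w => Q.eval ((rf P Q)^[i] w)) z :=
        ContinuousAt.comp (g := fun y => Q.eval y) Q.continuous.continuousAt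
          (iter_diff i (hQi i)).continuousAt
      exact h2.eventually_ne (horb i).2
    have h3 := (Filter.eventually_all_finset (Finset.range n)).2 h1
    filter_upwards [h3] with w hw i hi
    exact hw i (Finset.mem_range.2 hi)
  obtain ⟨ρ', hρ', hball'⟩ := Metric.mem_nhds_iff.1 (ev1.and ev2)
  obtain ⟨ρ, hρ, hball⟩ : ∃ ρ : ℝ, 0 < ρ ∧ ∀ w, ‖w - z‖ ≤ ρ →
      ‖(rf P Q)^[n] w - z‖ ≤ lam * ‖w - z‖ ∧ ∀ i < n, Q.eval ((rf P Q)^[i] w) ≠ 0 := by
    refine ⟨ρ' / 2, by positivity, fun w hw => hball' ?_⟩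
    rw [mem_ball, dist_eq_norm]
    linarith
  -- the points of the disc are attracted
  have hk : ∀ w, ‖w - z‖ ≤ ρ → ∀ k : ℕ, ‖((rf P Q)^[n])^[k] w - z‖ ≤ ρ ∧
      ‖((rf P Q)^[n])^[k] w - z‖ ≤ lam ^ k * ‖w - z‖ ∧
      (sph d P Q)^[n * k] (w : OnePoint ℂ) = ((((rf P Q)^[n])^[k] w : ℂ) : OnePoint ℂ) := by
    intro w hw k
    induction k with
    | zero => exact ⟨hw, by simp, rfl⟩
    | succ k ih =>
      obtain ⟨i1, i2, i3⟩ := ih
      rw [Function.iterate_succ_apply']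
      refine ⟨?_, ?_, ?_⟩
      · refine (hball _ i1).1.trans ?_
        nlinarith [norm_nonneg (((rf P Q)^[n])^[k] w - z)]
      · calc ‖(rf P Q)^[n] (((rf P Q)^[n])^[k] w) - z‖ ≤ lam * ‖((rf P Q)^[n])^[k] w - z‖ :=
              (hball _ i1).1
          _ ≤ lam * (lam ^ k * ‖w - z‖) := mul_le_mul_of_nonneg_left i2 hlam0
          _ = lam ^ (k + 1) * ‖w - z‖ := by ring
      · rw [Nat.mul_succ, Nat.add_comm, Function.iterate_add_apply, i3]
        exact iter_coe n (hball _ i1).2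
  have hatt : ∀ w, ‖w - z‖ ≤ ρ → Att d P Q (w : OnePoint ℂ) := by
    intro w hw
    refine ⟨n, hn, z, hfin, hper, hder, ?_⟩
    have h1 : Tendsto (fun k : ℕ => ((rf P Q)^[n])^[k] w) atTop (𝓝 z) := by
      rw [tendsto_iff_norm_sub_tendsto_zero]
      have h0 : Tendsto (fun k : ℕ => lam ^ k * ‖w - z‖) atTop (𝓝 0) := by
        simpa using (tendsto_pow_atTop_nhds_zero_of_lt_one hlam0 hlam2).mul_const ‖w - z‖
      exact squeeze_zero (fun k => norm_nonneg _) (fun k => (hk w hw k).2.1) h0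
    have h2 := ((OnePoint.continuous_coe (X := ℂ)).tendsto z).comp h1
    refine h2.congr fun k => ?_
    exact ((hk w hw k).2.2).symm
  -- the radii
  have hn0 : (0 : ℝ) < n := by exact_mod_cast hn
  obtain ⟨R, hR⟩ : ∃ R : ℕ → ℝ, R = fun j : ℕ => ρ * (1 - (1 - lam) * (j / n)) := ⟨_, rfl⟩
  have hR0 : R 0 = ρ := by rw [hR]; simp
  have hRle : ∀ j, R j ≤ ρ := by
    intro j
    rw [hR]
    have : 0 ≤ (1 - lam) * (j / n) := by
      have : 0 ≤ 1 - lam := by linarith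
      positivity
    simp only
    nlinarith
  have hRs : ∀ j, R (j + 1) < R j := by
    intro j
    rw [hR]
    simp only
    have h1 : ((j : ℕ) : ℝ) / n < ((j + 1 : ℕ) : ℝ) / n := by
      push_cast
      gcongr
      linarith
    have h2 : 0 < 1 - lam := by linarith
    have h3 : (1 - lam) * (((j : ℕ) : ℝ) / n) < (1 - lam) * (((j + 1 : ℕ) : ℝ) / n) := by gcongr
    nlinarith
  have hRl : ∀ j, j < n → lam * ρ < R j := by
    intro j hj
    rw [hR]
    simp only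
    have h1 : ((j : ℕ) : ℝ) / n < 1 := by
      rw [div_lt_one hn0]
      exact_mod_cast hj
    have h2 : 0 < 1 - lam := by linarith
    have h3 : (1 - lam) * (((j : ℕ) : ℝ) / n) < (1 - lam) * 1 := by gcongr
    nlinarith
  have hRpos : ∀ j, j < n → 0 < R j := fun j hj => lt_of_le_of_lt (by positivity) (hRl j hj)
  obtain ⟨W, hW⟩ : ∃ W : ℕ → Set (OnePoint ℂ), W = fun j =>
    (fun y : ℂ => (y : OnePoint ℂ)) '' ball z (R j) := ⟨_, rfl⟩
  have hWo : ∀ j, IsOpen (W j) := by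
    intro j
    rw [hW]
    exact (OnePoint.isOpenEmbedding_coe (X := ℂ)).isOpenMap _ isOpen_ball
  have hWc : ∀ j, closure (W j) ⊆ (fun y : ℂ => (y : OnePoint ℂ)) '' closedBall z (R j) := by
    intro j
    apply closure_minimal
    · rw [hW]
      exact image_mono ball_subset_closedBall
    · exact ((isCompact_closedBall z (R j)).image OnePoint.continuous_coe).isClosed
  refine ⟨⋃ j ∈ Finset.range n, (sph d P Q)^[j] ⁻¹' W j, ?_, ?_, ?_, ?_⟩
  · exact isOpen_biUnion fun j _ => (hWo j).preimage (hcont.iterate j)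
  · rw [mem_iUnion₂]
    refine ⟨0, Finset.mem_range.2 hn, ?_⟩
    rw [mem_preimage, hW]
    exact ⟨z, mem_ball_self (hRpos 0 hn), rfl⟩
  · intro x hx
    have h1 : closure (⋃ j ∈ Finset.range n, (sph d P Q)^[j] ⁻¹' W j) =
        ⋃ j ∈ Finset.range n, closure ((sph d P Q)^[j] ⁻¹' W j) :=
      (Finset.range n).closure_biUnion _
    rw [h1, mem_iUnion₂] at hx
    obtain ⟨j, hj, hx⟩ := hx
    rw [Finset.mem_range] at hj
    have h2 : (sph d P Q)^[j] x ∈ closure (W j) :=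
      (hcont.iterate j).closure_preimage_subset (W j) hx
    obtain ⟨w, hw, hwx⟩ := hWc j h2
    rw [mem_closedBall, dist_eq_norm] at hw
    rw [mem_iUnion₂]
    rcases j with _ | j
    · refine ⟨n - 1, Finset.mem_range.2 (by omega), ?_⟩
      rw [mem_preimage, ← Function.iterate_succ_apply, show (n - 1).succ = n by omega]
      have h3 : x = (w : OnePoint ℂ) := hwx.symm
      rw [hR0] at hw
      rw [h3, iter_coe n (hball w hw).2, hW]
      refine ⟨_, ?_, rfl⟩
      rw [mem_ball, dist_eq_norm]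
      refine lt_of_le_of_lt (hball w hw).1 (lt_of_le_of_lt ?_ (hRl (n - 1) (by omega)))
      gcongr
    · refine ⟨j, Finset.mem_range.2 (by omega), ?_⟩
      rw [mem_preimage, ← Function.iterate_succ_apply, hW]
      refine ⟨w, ?_, hwx⟩
      rw [mem_ball, dist_eq_norm]
      exact lt_of_le_of_lt hw (hRs j)
  · intro x hx
    rw [mem_iUnion₂] at hx
    obtain ⟨j, hj, hx⟩ := hx
    rw [mem_preimage, hW] at hx
    obtain ⟨w, hw, hwx⟩ := hx
    rw [mem_ball, dist_eq_norm] at hw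
    apply att_of_iter hcont j
    rw [← hwx]
    exact hatt w (hw.le.trans (hRle j))

/-- **A trapping neighbourhood of the attracted points.** -/
theorem exists_trap (hd : 0 < d) (hPQ : IsCoprime P Q) (hPd : P.natDegree ≤ d)
    (hQd : Q.natDegree = d) (hinf : Att d P Q ∞) {N : Set ℂ} (hN : IsOpen N)
    (hNb : Bornology.IsBounded N) (hKN : ∀ z : ℂ, ¬ Att d P Q (z : OnePoint ℂ) → z ∈ N)
    (hNQ : ∀ z ∈ closure N, Q.eval z ≠ 0) :
    ∃ U : Set ℂ, Trap P Q U ∧ U ⊆ N ∧ (∀ z : ℂ, z ∉ U → Att d P Q (z : OnePoint ℂ)) ∧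
      (∀ z : ℂ, ¬ Att d P Q (z : OnePoint ℂ) → z ∈ U) ∧
      ∀ z ∈ closure U, z ∉ U → rf P Q z ∉ closure U := by
  classical
  have hcont : Continuous (sph d P Q) := B1_continuous hPQ hPd hQd
  obtain ⟨Y, hY⟩ : ∃ Y : Set (OnePoint ℂ), Y = ((fun y : ℂ => (y : OnePoint ℂ)) '' N)ᶜ := ⟨_, rfl⟩
  have hYc : IsCompact Y := by
    rw [hY]
    exact ((OnePoint.isOpenEmbedding_coe (X := ℂ)).isOpenMap _ hN).isClosed_compl.isCompact
  have hYatt : ∀ x ∈ Y, Att d P Q x := by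
    intro x hx
    induction x using OnePoint.rec with
    | infty => exact hinf
    | coe z =>
      by_contra h
      rw [hY] at hx
      exact hx ⟨z, hKN z h, rfl⟩
  have h1 : ∀ x ∈ Y, ∃ (V : Set (OnePoint ℂ)) (m : ℕ), IsOpen V ∧ (sph d P Q)^[m] x ∈ V ∧
      (∀ x ∈ closure V, sph d P Q x ∈ V) ∧ ∀ x ∈ V, Att d P Q x := by
    intro x hx
    obtain ⟨n, hn, z, hfin, hper, hder, ht⟩ := hYatt x hx
    obtain ⟨V, hVo, hzV, hVc, hVa⟩ := trap_cycle hcont hn hfin hper hder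
    obtain ⟨k, hk⟩ := (ht.eventually (hVo.mem_nhds hzV)).exists
    exact ⟨V, n * k, hVo, hk, hVc, hVa⟩
  choose! V m hVo hVm hVc hVa using h1
  obtain ⟨s, hs⟩ := hYc.elim_nhds_subcover' (fun x _ => (sph d P Q)^[m x] ⁻¹' V x)
    (fun x hx => ((hVo x hx).preimage (hcont.iterate (m x))).mem_nhds (hVm x hx))
  obtain ⟨VV, hVV⟩ : ∃ VV : Set (OnePoint ℂ), VV = ⋃ x ∈ s, V (x : OnePoint ℂ) := ⟨_, rfl⟩
  have hVVo : IsOpen VV := by
    rw [hVV]
    exact isOpen_biUnion fun x _ => hVo x x.2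
  have hVVc : ∀ x ∈ closure VV, sph d P Q x ∈ VV := by
    intro x hx
    rw [hVV, s.closure_biUnion, mem_iUnion₂] at hx
    obtain ⟨y, hy, hx⟩ := hx
    rw [hVV, mem_iUnion₂]
    exact ⟨y, hy, hVc y y.2 x hx⟩
  have hVVa : ∀ x ∈ VV, Att d P Q x := by
    intro x hx
    rw [hVV, mem_iUnion₂] at hx
    obtain ⟨y, hy, hx⟩ := hx
    exact hVa y y.2 x hx
  have hfwd : ∀ k, ∀ x ∈ VV, (sph d P Q)^[k] x ∈ VV := by
    intro k
    induction k with
    | zero => intro x hx; exact hx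
    | succ k ih =>
      intro x hx
      rw [Function.iterate_succ_apply]
      exact ih _ (hVVc x (subset_closure hx))
  obtain ⟨M, hM⟩ : ∃ M : ℕ, ∀ x ∈ s, m (x : OnePoint ℂ) ≤ M :=
    ⟨∑ x ∈ s, m (x : OnePoint ℂ), fun x hx =>
      Finset.single_le_sum (f := fun x : Y => m (x : OnePoint ℂ)) (fun _ _ => Nat.zero_le _) hx⟩
  obtain ⟨T, hT⟩ : ∃ T : Set (OnePoint ℂ), T = (sph d P Q)^[M] ⁻¹' VV := ⟨_, rfl⟩
  have hTo : IsOpen T := by rw [hT]; exact hVVo.preimage (hcont.iterate M)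
  have hYT : Y ⊆ T := by
    intro x hx
    have h2 := hs hx
    rw [mem_iUnion₂] at h2
    obtain ⟨y, hy, h3⟩ := h2
    have h4 : (sph d P Q)^[m (y : OnePoint ℂ)] x ∈ VV := by
      rw [hVV, mem_iUnion₂]
      exact ⟨y, hy, h3⟩
    have h5 := hfwd (M - m (y : OnePoint ℂ)) _ h4
    rw [← Function.iterate_add_apply, Nat.sub_add_cancel (hM y hy)] at h5
    rw [hT]
    exact h5
  have hTc : ∀ x ∈ closure T, sph d P Q x ∈ T := by
    intro x hx
    rw [hT] at hx ⊢
    have h2 := (hcont.iterate M).closure_preimage_subset VV hx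
    have h3 := hVVc _ h2
    rw [mem_preimage, ← Function.iterate_succ_apply, Function.iterate_succ_apply']
    exact h3
  have hTa : ∀ x ∈ closure T, Att d P Q x := by
    intro x hx
    apply att_of_iter hcont 1
    apply att_of_iter hcont M
    apply hVVa
    have h2 := hTc x hx
    rw [hT] at h2
    exact h2
  obtain ⟨U, hU⟩ : ∃ U : Set ℂ, U = {w : ℂ | (w : OnePoint ℂ) ∉ closure T} := ⟨_, rfl⟩
  have hUo : IsOpen U := by
    rw [hU]
    exact isClosed_closure.isOpen_compl.preimage OnePoint.continuous_coe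
  have hUN : U ⊆ N := by
    intro w hw
    rw [hU] at hw
    by_contra h
    apply hw
    apply subset_closure
    apply hYT
    rw [hY]
    rintro ⟨y, hy, hyw⟩
    have h2 : y = w := by simpa using hyw
    rw [h2] at hy
    exact h hy
  have hout : ∀ w : ℂ, w ∉ U → (w : OnePoint ℂ) ∈ closure T := by
    intro w hw
    rw [hU] at hw
    by_contra h
    exact hw h
  refine ⟨U, ⟨hPQ, hUo, hNb.subset hUN, ?_⟩, hUN, fun z hz => hTa _ (hout z hz), fun z hz => ?_,
    ?_⟩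
  · intro w hw
    by_contra hwU
    have h2 := hTc _ (hout w hwU)
    have h3 : ∀ᶠ w' : ℂ in 𝓝 w, sph d P Q (w' : OnePoint ℂ) ∈ T := by
      have h4 : Continuous fun w' : ℂ => sph d P Q (w' : OnePoint ℂ) :=
        hcont.comp OnePoint.continuous_coe
      exact h4.continuousAt.eventually_mem (hTo.mem_nhds h2)
    rw [mem_closure_iff_frequently] at hw
    obtain ⟨w', h4, h5⟩ := (hw.and_eventually h3).exists
    rw [sph_coe_of_ne h4.1] at h5
    have h6 := h4.2
    rw [hU] at h6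
    exact h6 (subset_closure h5)
  · by_contra h
    exact hz (hTa _ (hout z h))
  · intro z hz hzU hr
    have h2 := hTc _ (hout z hzU)
    rw [sph_coe_of_ne (hNQ z (closure_mono hUN hz))] at h2
    have h3 : ∀ᶠ w : ℂ in 𝓝 (rf P Q z), (w : OnePoint ℂ) ∈ T :=
      (OnePoint.continuous_coe (X := ℂ)).continuousAt.eventually_mem (hTo.mem_nhds h2)
    rw [mem_closure_iff_frequently] at hr
    obtain ⟨w, h4, h5⟩ := (hr.and_eventually h3).exists
    rw [hU] at h4
    exact h4 (subset_closure h5)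

end Pool.Agent.Zk29.Hy
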