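import Pool.Agent.Zk29.Hy.B3
import Pool.Agent.Zk29.Rat.Core2

/-!
# Families of rational maps with one free critical point
-/

set_option autoImplicit false
open Set Filter Topology Metric Polynomial
open scoped OnePoint

namespace Pool.Agent.Zk29.Hy

open Pool.Agent.H792R2.CE Pool.Agent.H792R2.CE.C2x Pool.Agent.Zk29.Rat
open Pool.Agent.Helper114.Herman

/-- `P / Q` is a limit of hyperbolic rational maps of degree `d`. -/
def Approx (d : ℕ) (P Q : ℂ[X]) : Prop :=
  ∀ ε : ℝ, 0 < ε → ∃ P' Q' : ℂ[X], IsCoprime P' Q' ∧ P'.natDegree ≤ d ∧ Q'.natDegree = d ∧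
    (∀ i, ‖P'.coeff i - P.coeff i‖ < ε ∧ ‖Q'.coeff i - Q.coeff i‖ < ε) ∧
    ∀ x : OnePoint ℂ, Att d P' Q' x ∨ ∃ U ∈ 𝓝 x, Set.InjOn (sph d P' Q') U

/-- The standing assumptions. -/
structure One (d : ℕ) (P Q : ℂ[X]) (c : ℂ) (U U₁ : Set ℂ) : Prop where
  d2 : 2 ≤ d
  cop : IsCoprime P Q
  Pd : P.natDegree ≤ d
  Qd : Q.natDegree = d
  inf : Att d P Q ∞
  c0 : (wr P Q).eval c = 0
  cm : (wr P Q).rootMultiplicity c = 1
  cn : ¬ Att d P Q (c : OnePoint ℂ)
  trap : Trap P Q U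
  bd : ∀ z ∈ closure U, z ∉ U → rf P Q z ∉ closure U
  q : ∀ z ∈ closure U, Q.eval z ≠ 0
  w : ∀ z ∈ closure U, (wr P Q).eval z = 0 → z = c
  o : IsOpen U₁
  s : closure U₁ ⊆ U
  n : ∀ z : ℂ, ¬ Att d P Q (z : OnePoint ℂ) → z ∈ U₁

/-- The family in the direction `(H, G)`. -/
structure Fam (d : ℕ) (P Q : ℂ[X]) (c : ℂ) (U U₁ : Set ℂ) (H G : ℂ[X]) (r : ℝ) (τ : ℂ → ℂ) :
    Prop where
  hr : 0 < r
  deg : ∀ t ∈ ball (0 : ℂ) r, IsCoprime (P + C t * H) (Q + C t * G) ∧
    (P + C t * H).natDegree ≤ d ∧ (Q + C t * G).natDegree = d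
  q : ∀ t ∈ ball (0 : ℂ) r, ∀ z ∈ closure U, (Q + C t * G).eval z ≠ 0
  bd : ∀ t ∈ ball (0 : ℂ) r, ∀ z ∈ closure U, z ∉ U → rf (P + C t * H) (Q + C t * G) z ∉ closure U
  att : ∀ t ∈ ball (0 : ℂ) r, ∀ z : ℂ, z ∉ U₁ → Att d (P + C t * H) (Q + C t * G) (z : OnePoint ℂ)
  inf : ∀ t ∈ ball (0 : ℂ) r, Att d (P + C t * H) (Q + C t * G) ∞
  crit : ∀ t ∈ ball (0 : ℂ) r, ∀ z ∈ closure U, (wr (P + C t * H) (Q + C t * G)).eval z = 0 →
    z = τ t
  τ0 : τ 0 = c
  τd : DifferentiableOn ℂ τ (ball 0 r)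
  natt : ∀ t ∈ ball (0 : ℂ) r, ¬ Att d (P + C t * H) (Q + C t * G) (τ t : OnePoint ℂ)

theorem exists_one {P Q : ℂ[X]} {d : ℕ} (hd : 2 ≤ d) (hPQ : IsCoprime P Q) (hPd : P.natDegree ≤ d)
    (hQd : Q.natDegree = d) (hinf : Att d P Q ∞) {c : ℂ} (hc : (wr P Q).eval c = 0)
    (hcm : (wr P Q).rootMultiplicity c = 1) (hcn : ¬ Att d P Q (c : OnePoint ℂ))
    (huniq : ∀ c' : ℂ, (wr P Q).eval c' = 0 → ¬ Att d P Q (c' : OnePoint ℂ) → c' = c) :
    ∃ U U₁ : Set ℂ, One d P Q c U U₁ := by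
  have hd0 : 0 < d := by omega
  have hcont : Continuous (sph d P Q) := B1_continuous hPQ hPd hQd
  have hN : wr P Q ≠ 0 := wr_ne_zero hd0 hPQ hQd
  have hQ0 : Q ≠ 0 := by
    intro h
    rw [h, natDegree_zero] at hQd
    omega
  have hKc : IsCompact {z : ℂ | ¬ Att d P Q (z : OnePoint ℂ)} :=
    natt_compact hd0 hPQ hPd hQd hinf
  obtain ⟨O, hO⟩ : ∃ O : Set ℂ, O = {z | Q.eval z ≠ 0 ∧ ((wr P Q).eval z = 0 → z = c)} := ⟨_, rfl⟩
  have hOo : IsOpen O := by
    have h1 : Oᶜ = (Q.roots.toFinset : Set ℂ) ∪ ((wr P Q).roots.toFinset.erase c : Finset ℂ) := by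
      ext z
      rw [hO]
      simp only [mem_compl_iff, mem_ofPred_eq, not_and, not_forall, mem_union, Finset.mem_coe,
        Multiset.mem_toFinset, Finset.mem_erase, mem_roots hQ0, mem_roots hN, IsRoot.def]
      constructor
      · intro h
        by_cases h2 : Q.eval z = 0
        · exact Or.inl h2
        · obtain ⟨h3, h4⟩ := h h2
          exact Or.inr ⟨h4, h3⟩
      · rintro (h | ⟨h1, h2⟩) h3
        · exact absurd h h3
        · exact ⟨h2, h1⟩
    rw [← isClosed_compl_iff, h1]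
    exact (Finset.finite_toSet _).isClosed.union (Finset.finite_toSet _).isClosed
  have hKO : {z : ℂ | ¬ Att d P Q (z : OnePoint ℂ)} ⊆ O := by
    intro z hz
    rw [hO]
    exact ⟨(natt_step hcont hinf hz).1, fun h => huniq z h hz⟩
  obtain ⟨δ, hδ, hδs⟩ := hKc.exists_cthickening_subset_open hOo hKO
  obtain ⟨U, hT, hUN, hUa, hUk, hUb⟩ := exists_trap hd0 hPQ hPd hQd hinf
    (N := thickening δ {z : ℂ | ¬ Att d P Q (z : OnePoint ℂ)}) isOpen_thickening
    hKc.isBounded.thickening (fun z hz => self_subset_thickening hδ _ hz) (fun z hz => by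
      have h1 : z ∈ O := hδs (closure_thickening_subset_cthickening _ _ hz)
      rw [hO] at h1
      exact h1.1)
  obtain ⟨δ₁, hδ₁, hδ₁s⟩ := hKc.exists_cthickening_subset_open hT.opn (fun z hz => hUk z hz)
  have hclU : closure U ⊆ O := by
    refine (closure_mono hUN).trans ?_
    exact (closure_thickening_subset_cthickening _ _).trans hδs
  refine ⟨U, thickening δ₁ {z : ℂ | ¬ Att d P Q (z : OnePoint ℂ)}, hd, hPQ, hPd, hQd, hinf, hc,
    hcm, hcn, hT, hUb, fun z hz => ?_, fun z hz h => ?_, isOpen_thickening, ?_, fun z hz => ?_⟩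
  · have := hclU hz
    rw [hO] at this
    exact this.1
  · have := hclU hz
    rw [hO] at this
    exact this.2 h
  · exact (closure_thickening_subset_cthickening _ _).trans hδ₁s
  · exact self_subset_thickening hδ₁ _ hz

theorem exists_fam {P Q : ℂ[X]} {d : ℕ} {c : ℂ} {U U₁ : Set ℂ} (O : One d P Q c U U₁)
    (hna : ¬ Approx d P Q) {H G : ℂ[X]} (hHd : H.natDegree ≤ d) (hGd : G.natDegree ≤ d)
    (hN₁ : (wr H Q + wr P G).eval c ≠ 0) : ∃ (r : ℝ) (τ : ℂ → ℂ), Fam d P Q c U U₁ H G r τ := by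
  have hd0 : 0 < d := by have := O.d2; omega
  have hN : wr P Q ≠ 0 := wr_ne_zero hd0 O.cop O.Qd
  have hUc : IsCompact (closure U) := O.trap.bdd.isCompact_closure
  obtain ⟨τ, t', ρ, hρ, -, hτ0, -, hτD, -, hτuniq⟩ := A1_branch (H := H) (G := G) (k := 1) le_rfl
    O.cm hN hN₁
  simp only [pow_one] at hτuniq
  have hB : ∀ (n : ℕ) (x : OnePoint ℂ), ContinuousAt (fun p : ℂ × OnePoint ℂ =>
      (sph d (P + C p.1 * H) (Q + C p.1 * G))^[n] p.2) (0, x) :=
    fun n x => B2_joint hd0 O.cop O.Pd O.Qd hHd hGd n x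
  have hst : ∀ x : OnePoint ℂ, Att d P Q x → ∀ᶠ p : ℂ × OnePoint ℂ in 𝓝 (0, x),
      Att d (P + C p.1 * H) (Q + C p.1 * G) p.2 := by
    intro x hx
    have := att_stable_pow (H := H) (G := G) (K := 1) le_rfl hB hx
    simpa only [pow_one] using this
  -- the conditions
  have e1 : ∀ᶠ t : ℂ in 𝓝 0, IsCoprime (P + C t * H) (Q + C t * G) ∧
      (P + C t * H).natDegree ≤ d ∧ (Q + C t * G).natDegree = d :=
    B3_coprime hd0 O.cop O.Pd O.Qd hHd hGd
  have hQc : Continuous (fun p : ℂ × ℂ => (Q + C p.1 * G).eval p.2) := by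
    simp only [Polynomial.eval_add, Polynomial.eval_mul, Polynomial.eval_C]
    have h1 : Continuous (fun p : ℂ × ℂ => Q.eval p.2) := Q.continuous.comp continuous_snd
    have h2 : Continuous (fun p : ℂ × ℂ => G.eval p.2) := G.continuous.comp continuous_snd
    fun_prop
  have e2 : ∀ᶠ t : ℂ in 𝓝 0, ∀ z ∈ closure U, (Q + C t * G).eval z ≠ 0 := by
    refine hUc.eventually_forall_of_forall_eventually fun z hz => ?_
    refine hQc.continuousAt.eventually_ne ?_
    change (Q + C (0 : ℂ) * G).eval z ≠ 0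
    simpa using O.q z hz
  have hfc : ∀ z ∈ closure U, ContinuousAt (fun p : ℂ × ℂ =>
      rf (P + C p.1 * H) (Q + C p.1 * G) p.2) (0, z) := by
    intro z hz
    have h1 := fam_contDiffAt (P := P) (Q := Q) (H := H) (G := G) (K := 1) ((0 : ℂ), z) (by
      change (Q + C ((0 : ℂ) ^ 1) * G).eval z ≠ 0
      simpa using O.q z hz)
    have h2 := h1.continuousAt
    simp only [fam, pow_one] at h2
    exact h2
  have e3 : ∀ᶠ t : ℂ in 𝓝 0, ∀ z ∈ closure U ∩ Uᶜ,
      rf (P + C t * H) (Q + C t * G) z ∉ closure U := by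
    have h1 : IsCompact (closure U ∩ Uᶜ) := hUc.inter_right O.trap.opn.isClosed_compl
    refine h1.eventually_forall_of_forall_eventually fun z hz => ?_
    refine (hfc z hz.1).eventually_mem (s := (closure U)ᶜ) ?_
    refine isClosed_closure.isOpen_compl.mem_nhds ?_
    change rf (P + C (0 : ℂ) * H) (Q + C (0 : ℂ) * G) z ∉ closure U
    have h2 := O.bd z hz.1 hz.2
    simpa using h2
  have e4 : ∀ᶠ t : ℂ in 𝓝 0, ∀ x ∈ ((fun y : ℂ => (y : OnePoint ℂ)) '' U₁)ᶜ,
      Att d (P + C t * H) (Q + C t * G) x := by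
    have h1 : IsCompact (((fun y : ℂ => (y : OnePoint ℂ)) '' U₁)ᶜ) :=
      ((OnePoint.isOpenEmbedding_coe (X := ℂ)).isOpenMap _ O.o).isClosed_compl.isCompact
    refine h1.eventually_forall_of_forall_eventually fun x hx => hst x ?_
    induction x using OnePoint.rec with
    | infty => exact O.inf
    | coe z =>
      by_contra h
      exact hx ⟨z, O.n z h, rfl⟩
  have hwc : Continuous (fun p : ℂ × ℂ => (wr (P + C p.1 * H) (Q + C p.1 * G)).eval p.2) := by
    simp only [wr_family, Polynomial.eval_add, Polynomial.eval_mul, Polynomial.eval_C]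
    have c1 : Continuous (fun p : ℂ × ℂ => (wr P Q).eval p.2) :=
      (wr P Q).continuous.comp continuous_snd
    have c2 : Continuous (fun p : ℂ × ℂ => (wr H Q).eval p.2) :=
      (wr H Q).continuous.comp continuous_snd
    have c3 : Continuous (fun p : ℂ × ℂ => (wr P G).eval p.2) :=
      (wr P G).continuous.comp continuous_snd
    have c4 : Continuous (fun p : ℂ × ℂ => (wr H G).eval p.2) :=
      (wr H G).continuous.comp continuous_snd
    fun_prop
  have e5 : ∀ᶠ t : ℂ in 𝓝 0, ∀ z ∈ closure U,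
      (wr (P + C t * H) (Q + C t * G)).eval z = 0 → z = τ t := by
    refine hUc.eventually_forall_of_forall_eventually fun z hz => ?_
    by_cases h0 : (wr P Q).eval z = 0
    · have hzc := O.w z hz h0
      have hnear : ∀ᶠ p : ℂ × ℂ in 𝓝 (0, z), ‖p.2 - z‖ < ρ ∧ ‖p.1‖ < ρ := by
        refine Eventually.and ?_ ?_
        · have h1 : Continuous (fun p : ℂ × ℂ => ‖p.2 - z‖) := by fun_prop
          have h2 : ‖(((0 : ℂ), z) : ℂ × ℂ).2 - z‖ < ρ := by simpa using hρ
          exact (h1.tendsto ((0 : ℂ), z)).eventually (Iio_mem_nhds h2)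
        · have h1 : Continuous (fun p : ℂ × ℂ => ‖p.1‖) := by fun_prop
          have h2 : ‖(((0 : ℂ), z) : ℂ × ℂ).1‖ < ρ := by simpa using hρ
          exact (h1.tendsto ((0 : ℂ), z)).eventually (Iio_mem_nhds h2)
      filter_upwards [hnear] with p hp hw
      obtain ⟨ω, hω, h1⟩ := hτuniq p.2 p.1 (by rw [← hzc]; exact hp.1) hp.2 hw
      rw [h1, hω, one_mul]
    · have h1 : ∀ᶠ p : ℂ × ℂ in 𝓝 (0, z),
          (wr (P + C p.1 * H) (Q + C p.1 * G)).eval p.2 ≠ 0 := by
        refine hwc.continuousAt.eventually_ne ?_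
        change (wr (P + C (0 : ℂ) * H) (Q + C (0 : ℂ) * G)).eval z ≠ 0
        simpa using h0
      filter_upwards [h1] with p hp h2 using absurd h2 hp
  -- the coefficients
  unfold Approx at hna
  push Not at hna
  obtain ⟨ε, hε, hε'⟩ := hna
  have e6 : ∀ᶠ t : ℂ in 𝓝 0, ∀ i ∈ Finset.range (d + 1),
      ‖t * H.coeff i‖ < ε ∧ ‖t * G.coeff i‖ < ε := by
    rw [Filter.eventually_all_finset]
    intro i _
    have h1 : ∀ R : ℂ[X], ∀ᶠ a : ℂ in 𝓝 0, ‖a * R.coeff i‖ < ε := by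
      intro R
      have h2 : Continuous (fun a : ℂ => ‖a * R.coeff i‖) := by fun_prop
      have h3 : ‖(0 : ℂ) * R.coeff i‖ < ε := by
        rw [zero_mul, norm_zero]
        exact hε
      exact (h2.tendsto 0).eventually (Iio_mem_nhds h3)
    exact (h1 H).and (h1 G)
  obtain ⟨r', hr', hr's⟩ := Metric.mem_nhds_iff.1 ((e1.and (e2.and e3)).and ((e4.and e5).and e6))
  refine ⟨min r' ρ, τ, lt_min hr' hρ, ?_, ?_, ?_, ?_, ?_, ?_, hτ0, ?_, ?_⟩
  · intro t ht
    exact (hr's (ball_subset_ball (min_le_left _ _) ht)).1.1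
  · intro t ht
    exact (hr's (ball_subset_ball (min_le_left _ _) ht)).1.2.1
  · intro t ht z hz hzU
    exact (hr's (ball_subset_ball (min_le_left _ _) ht)).1.2.2 z ⟨hz, hzU⟩
  · intro t ht z hz
    apply (hr's (ball_subset_ball (min_le_left _ _) ht)).2.1.1
    rintro ⟨y, hy, hyz⟩
    have h2 : y = z := by simpa using hyz
    rw [h2] at hy
    exact hz hy
  · intro t ht
    apply (hr's (ball_subset_ball (min_le_left _ _) ht)).2.1.1
    rintro ⟨y, hy, hyz⟩
    exact OnePoint.coe_ne_infty y hyz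
  · intro t ht
    exact (hr's (ball_subset_ball (min_le_left _ _) ht)).2.1.2
  · intro t ht
    apply DifferentiableAt.differentiableWithinAt
    apply hτD
    have := ball_subset_ball (min_le_right _ _) ht
    rwa [mem_ball_zero_iff] at this
  · intro t ht hatt
    obtain ⟨⟨⟨h1, h2, h3⟩, h4, h5⟩, ⟨h6, h7⟩, h8⟩ :=
      hr's (ball_subset_ball (min_le_left _ _) ht)
    obtain ⟨x, hx1, hx2⟩ := hε' (P + C t * H) (Q + C t * G) h1 h2 h3 (by
      intro i
      have e1 : ∀ R S : ℂ[X], (R + C t * S).coeff i - R.coeff i = t * S.coeff i := by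
        intro R S
        rw [Polynomial.coeff_add, Polynomial.coeff_C_mul]
        ring
      rw [e1, e1]
      by_cases hi : i ∈ Finset.range (d + 1)
      · exact h8 i hi
      · rw [Finset.mem_range] at hi
        rw [Polynomial.coeff_eq_zero_of_natDegree_lt (show H.natDegree < i by omega),
          Polynomial.coeff_eq_zero_of_natDegree_lt (show G.natDegree < i by omega), mul_zero,
          norm_zero]
        exact ⟨hε, hε⟩)
    apply hx1
    induction x using OnePoint.rec with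
    | infty =>
      apply h6
      rintro ⟨y, hy, hyz⟩
      exact OnePoint.coe_ne_infty y hyz
    | coe z =>
      by_cases hz : z ∈ U₁
      · have hzc : z ∈ closure U := subset_closure (O.s (subset_closure hz))
        by_cases hw : (wr (P + C t * H) (Q + C t * G)).eval z = 0
        · rw [h7 z hzc hw]
          exact hatt
        · exfalso
          obtain ⟨V, hV, hinj⟩ := C4_inj (d := d) (h4 z hzc) hw
          exact hx2 V hV hinj
      · apply h6
        rintro ⟨y, hy, hyz⟩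
        have h2 : y = z := by simpa using hyz
        rw [h2] at hy
        exact hz hy

end Pool.Agent.Zk29.Hy
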