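import Pool.Agent.Zk29.Hy.B5
import Pool.Agent.Zk29.Rat.Orb

/-!
# The functionals of the closed critical orbits
-/

set_option autoImplicit false
open Set Filter Topology Metric Polynomial
open scoped OnePoint

namespace Pool.Agent.Zk29.Hy

open Pool.Agent.H792R2.CE Pool.Agent.H792R2.CE.C2x Pool.Agent.Zk29.Rat
open Pool.Agent.Helper114.Herman

variable {d : ℕ} {P Q : ℂ[X]} {c : ℂ} {U U₁ : Set ℂ} {H G : ℂ[X]} {r : ℝ} {τ : ℂ → ℂ}

/-- The functional of the critical orbit closed up at time `J`. -/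
noncomputable def ellR (P Q : ℂ[X]) (c : ℂ) (J : ℕ) : ℂ[X] →ₗ[ℂ] ℂ :=
  ell P Q c (fun j => (rf P Q)^[j] (rf P Q c))
      (fun j => (deriv ((rf P Q)^[j]) (rf P Q c))⁻¹) J -
    ((deriv ((rf P Q)^[J]) (rf P Q c))⁻¹ / Q.eval c ^ 2) • leval c

lemma One.qorb (O : One d P Q c U U₁) (j : ℕ) : Q.eval ((rf P Q)^[j] c) ≠ 0 :=
  (natt_iter (B1_continuous O.cop O.Pd O.Qd) O.inf O.cn j).2

lemma One.norb (O : One d P Q c U U₁) (j : ℕ) :
    ¬ Att d P Q (((rf P Q)^[j] c : ℂ) : OnePoint ℂ) :=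
  (natt_iter (B1_continuous O.cop O.Pd O.Qd) O.inf O.cn j).1

lemma One.qv (O : One d P Q c U U₁) (j : ℕ) : Q.eval ((rf P Q)^[j] (rf P Q c)) ≠ 0 := by
  have := O.qorb (j + 1)
  rwa [Function.iterate_succ_apply] at this

lemma One.nv (O : One d P Q c U U₁) (j : ℕ) :
    ¬ Att d P Q (((rf P Q)^[j] (rf P Q c) : ℂ) : OnePoint ℂ) := by
  have := O.norb (j + 1)
  rwa [Function.iterate_succ_apply] at this

lemma One.ne_deriv (O : One d P Q c U U₁)
    (hne : ∀ j, (wr P Q).eval ((rf P Q)^[j] (rf P Q c)) ≠ 0) (j : ℕ) :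
    deriv ((rf P Q)^[j]) (rf P Q c) ≠ 0 := by
  induction j with
  | zero =>
    rw [Function.iterate_zero]
    rw [deriv_id]
    exact one_ne_zero
  | succ j ih =>
    rw [rf_iter_deriv_succ j fun i _ => O.qv i]
    exact mul_ne_zero (div_ne_zero (hne j) (pow_ne_zero 2 (O.qv j))) ih

theorem Fam.deriv_eq (O : One d P Q c U U₁) (F : Fam d P Q c U U₁ H G r τ)
    (hne : ∀ j, (wr P Q).eval ((rf P Q)^[j] (rf P Q c)) ≠ 0) (J : ℕ) :
    deriv (fun t => XX P Q H G τ (J + 1) t - XX P Q H G τ 1 t) 0 =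
      deriv ((rf P Q)^[J]) (rf P Q c) * ellR P Q c J (H * Q - P * G) := by
  have hmem0 : (0 : ℂ) ∈ ball (0 : ℂ) r := mem_ball_self F.hr
  have hτd : HasDerivAt τ (deriv τ 0) 0 :=
    (F.τd.differentiableAt (isOpen_ball.mem_nhds hmem0)).hasDerivAt
  have hd := O.ne_deriv hne
  have h1 : HasDerivAt (XX P Q H G τ (J + 1)) _ 0 :=
    E1_orbit (H := H) (G := G) F.τ0 hτd O.c0 O.qorb hd J
  have h0 : HasDerivAt (XX P Q H G τ 1) _ 0 :=
    E1_orbit (H := H) (G := G) F.τ0 hτd O.c0 O.qorb hd 0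
  have h2 : HasDerivAt (fun t => XX P Q H G τ (J + 1) t - XX P Q H G τ 1 t) _ 0 := h1.sub h0
  rw [h2.deriv]
  unfold ellR
  rw [LinearMap.sub_apply, LinearMap.smul_apply, leval_apply, smul_eq_mul,
    ell_eq O.c0 (fun j _ => O.qorb j) (fun j _ => hne j)]
  have h3 : deriv ((rf P Q)^[0]) (rf P Q c) = 1 := by
    rw [Function.iterate_zero, deriv_id]
  rw [zero_add, Finset.sum_range_one, h3, one_mul, div_one, Function.iterate_zero_apply, mul_sub]
  congr 1
  have h4 := hd J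
  have h5 := O.qorb 0
  rw [Function.iterate_zero_apply] at h5
  field_simp

/-- A direction is admissible. -/
noncomputable def NN (Q : ℂ[X]) (c : ℂ) (S : ℂ[X]) : ℂ :=
  (derivative S).eval c * Q.eval c - 2 * S.eval c * (derivative Q).eval c

/-- The logarithmic modulus. -/
noncomputable def lm (R : ℝ) (x : ℝ) : ℝ := x * Real.log (4 * R / x)

lemma lm_nonneg {R x : ℝ} (_hR : 0 < R) (h0 : 0 ≤ x) (h1 : x ≤ 2 * R) : 0 ≤ lm R x := by
  unfold lm
  rcases h0.eq_or_lt with h | h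
  · rw [← h, zero_mul]
  · apply mul_nonneg h0
    apply Real.log_nonneg
    rw [le_div_iff₀ h]
    linarith

theorem ell_bound1 (O : One d P Q c U U₁) (hna : ¬ Approx d P Q)
    (hne : ∀ j, (wr P Q).eval ((rf P Q)^[j] (rf P Q c)) ≠ 0)
    (hleave : ∀ s : ℝ, 0 < s → ∃ y, ‖y - rf P Q c‖ < s ∧ ∃ N, y ∉ UR P Q U N) {R : ℝ} (hR : 0 < R)
    (hUR : ∀ z ∈ U, ‖z‖ ≤ R) {S : ℂ[X]} (hS : S.natDegree ≤ 2 * d) (hN : NN Q c S ≠ 0) :
    ∃ C : ℝ, 0 ≤ C ∧ ∀ J, ‖deriv ((rf P Q)^[J]) (rf P Q c)‖ * ‖ellR P Q c J S‖ ≤ C ∧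
      ‖deriv ((rf P Q)^[J]) (rf P Q c)‖ * ‖ellR P Q c J S‖ ≤
        C * lm R ‖(rf P Q)^[J] (rf P Q c) - rf P Q c‖ := by
  have hd0 : 0 < d := by have := O.d2; omega
  obtain ⟨H, G, hHd, hGd, hHG⟩ := D9_bezout O.cop O.Pd O.Qd hd0 hS
  have hN₁ : (wr H Q + wr P G).eval c ≠ 0 := by
    intro h0
    apply hN
    have h2 := O.c0
    unfold NN
    rw [← hHG]
    simp only [wr, Polynomial.eval_sub, Polynomial.eval_add, Polynomial.eval_mul,
      derivative_sub, derivative_mul] at h0 h2 ⊢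
    linear_combination (Q.eval c) * h0 - 2 * G.eval c * h2
  obtain ⟨r, τ, F⟩ := exists_fam O hna hHd hGd hN₁
  have hr := F.hr
  have h0 : rf (P + C (0 : ℂ) * H) (Q + C (0 : ℂ) * G) = rf P Q := by simp
  have hvU : rf P Q c ∈ U := O.s (subset_closure (O.n _ (O.nv 0)))
  refine ⟨2 * R / (r / 2) + 4 / r, by positivity, fun J => ?_⟩
  have e := F.deriv_eq O hne J
  rw [hHG] at e
  have h1 := F.one O hUR J
  have h2 := F.two O hleave hR hUR J
  have hX : XX P Q H G τ (J + 1) 0 = (rf P Q)^[J] (rf P Q c) := by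
    unfold XX
    rw [h0, F.τ0, Function.iterate_succ_apply]
  rw [e, norm_mul] at h1 h2
  rw [hX] at h2
  have hJU : (rf P Q)^[J] (rf P Q c) ∈ U := O.s (subset_closure (O.n _ (O.nv J)))
  have hq : 0 ≤ lm R ‖(rf P Q)^[J] (rf P Q c) - rf P Q c‖ := by
    apply lm_nonneg hR (norm_nonneg _)
    have h3 := norm_sub_le ((rf P Q)^[J] (rf P Q c)) (rf P Q c)
    have h4 := hUR _ hJU
    have h5 := hUR _ hvU
    linarith
  refine ⟨h1.trans ?_, h2.trans ?_⟩
  · have : 0 < 4 / r := by positivity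
    linarith
  · change 4 / r * lm R ‖(rf P Q)^[J] (rf P Q c) - rf P Q c‖ ≤ _
    gcongr
    have : 0 ≤ 2 * R / (r / 2) := by positivity
    linarith

theorem ell_bound (O : One d P Q c U U₁) (hna : ¬ Approx d P Q)
    (hne : ∀ j, (wr P Q).eval ((rf P Q)^[j] (rf P Q c)) ≠ 0)
    (hleave : ∀ s : ℝ, 0 < s → ∃ y, ‖y - rf P Q c‖ < s ∧ ∃ N, y ∉ UR P Q U N) {R : ℝ} (hR : 0 < R)
    (hUR : ∀ z ∈ U, ‖z‖ ≤ R) :
    ∃ C : ℝ, 0 ≤ C ∧ ∀ J, ∀ k ≤ 2 * d,
      ‖deriv ((rf P Q)^[J]) (rf P Q c)‖ * ‖ellR P Q c J (X ^ k)‖ ≤ C ∧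
      ‖deriv ((rf P Q)^[J]) (rf P Q c)‖ * ‖ellR P Q c J (X ^ k)‖ ≤
        C * lm R ‖(rf P Q)^[J] (rf P Q c) - rf P Q c‖ := by
  have hd := O.d2
  have key : ∀ k ≤ 2 * d, ∃ C : ℝ, 0 ≤ C ∧ ∀ J,
      ‖deriv ((rf P Q)^[J]) (rf P Q c)‖ * ‖ellR P Q c J (X ^ k)‖ ≤ C ∧
      ‖deriv ((rf P Q)^[J]) (rf P Q c)‖ * ‖ellR P Q c J (X ^ k)‖ ≤
        C * lm R ‖(rf P Q)^[J] (rf P Q c) - rf P Q c‖ := by
    intro k hk
    by_cases hN : NN Q c (X ^ k) = 0
    · have hs : NN Q c (X - C c) ≠ 0 := by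
        unfold NN
        have := O.qorb 0
        rw [Function.iterate_zero_apply] at this
        simpa using this
      have hadd : NN Q c (X ^ k + (X - C c)) ≠ 0 := by
        have : NN Q c (X ^ k + (X - C c)) = NN Q c (X ^ k) + NN Q c (X - C c) := by
          unfold NN
          rw [derivative_add, Polynomial.eval_add, Polynomial.eval_add]
          ring
        rw [this, hN, zero_add]
        exact hs
      obtain ⟨C₁, hC₁, h1⟩ := ell_bound1 O hna hne hleave hR hUR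
        (S := X ^ k + (X - C c)) (by
          refine (natDegree_add_le _ _).trans (max_le ?_ ?_)
          · rw [natDegree_X_pow]
            exact hk
          · rw [natDegree_X_sub_C]
            omega) hadd
      obtain ⟨C₂, hC₂, h2⟩ := ell_bound1 O hna hne hleave hR hUR
        (S := X - C c) (by
          rw [natDegree_X_sub_C]
          omega) hs
      refine ⟨C₁ + C₂, by positivity, fun J => ?_⟩
      have e : ellR P Q c J (X ^ k) = ellR P Q c J (X ^ k + (X - C c)) -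
          ellR P Q c J (X - C c) := by
        rw [map_add, add_sub_cancel_right]
      have h3 : ‖deriv ((rf P Q)^[J]) (rf P Q c)‖ * ‖ellR P Q c J (X ^ k)‖ ≤
          ‖deriv ((rf P Q)^[J]) (rf P Q c)‖ * ‖ellR P Q c J (X ^ k + (X - C c))‖ +
          ‖deriv ((rf P Q)^[J]) (rf P Q c)‖ * ‖ellR P Q c J (X - C c)‖ := by
        rw [← mul_add, e]
        gcongr
        exact norm_sub_le _ _
      constructor
      · have := (h1 J).1
        have := (h2 J).1
        linarith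
      · have := (h1 J).2
        have := (h2 J).2
        linarith
    · exact ell_bound1 O hna hne hleave hR hUR (by
        rw [natDegree_X_pow]
        exact hk) hN
  choose! Cc hC0 hC using key
  have hs : ∀ k ≤ 2 * d, Cc k ≤ ∑ k ∈ Finset.range (2 * d + 1), Cc k := by
    intro k hk
    exact Finset.single_le_sum (f := Cc)
      (fun i hi => hC0 i (by rw [Finset.mem_range] at hi; omega)) (Finset.mem_range.2 (by omega))
  have hvU : rf P Q c ∈ U := O.s (subset_closure (O.n _ (O.nv 0)))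
  refine ⟨∑ k ∈ Finset.range (2 * d + 1), Cc k, Finset.sum_nonneg fun i hi =>
    hC0 i (by rw [Finset.mem_range] at hi; omega), fun J k hk => ?_⟩
  have h1 := hC k hk J
  refine ⟨h1.1.trans (hs k hk), h1.2.trans ?_⟩
  have hJU : (rf P Q)^[J] (rf P Q c) ∈ U := O.s (subset_closure (O.n _ (O.nv J)))
  have hq : 0 ≤ lm R ‖(rf P Q)^[J] (rf P Q c) - rf P Q c‖ := by
    apply lm_nonneg hR (norm_nonneg _)
    have h3 := norm_sub_le ((rf P Q)^[J] (rf P Q c)) (rf P Q c)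
    have h4 := hUR _ hJU
    have h5 := hUR _ hvU
    linarith
  have h6 := hs k hk
  gcongr

end Pool.Agent.Zk29.Hy
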