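import Pool.Agent.Zk29.Hy.B7

/-!
# The free critical orbit as a system
-/

set_option autoImplicit false
open Set Filter Topology Metric Polynomial MeasureTheory
open scoped OnePoint ENNReal

namespace Pool.Agent.Zk29.Hy

open Pool.Agent.H792R2.CE Pool.Agent.H792R2.CE.C2x Pool.Agent.Zk29.Rat
open Pool.Agent.Helper114.Herman Pool.Agent.Zk29.Ab

variable {d : ℕ} {P Q : ℂ[X]} {c : ℂ} {U U₁ : Set ℂ}

/-- The critical points and the poles. -/
def Zq (P Q : ℂ[X]) : Set ℂ := {z | (wr P Q).eval z = 0 ∨ Q.eval z = 0}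

lemma Zq_fin (hN : wr P Q ≠ 0) (hQ : Q ≠ 0) : (Zq P Q).Finite := by
  have h1 : Zq P Q = ((wr P Q).roots.toFinset : Set ℂ) ∪ (Q.roots.toFinset : Set ℂ) := by
    ext z
    unfold Zq
    simp [hN, hQ]
  rw [h1]
  exact (Finset.finite_toSet _).union (Finset.finite_toSet _)

lemma One.N0 (O : One d P Q c U U₁) : wr P Q ≠ 0 :=
  wr_ne_zero (by have := O.d2; omega) O.cop O.Qd

lemma One.Q0 (O : One d P Q c U U₁) : Q ≠ 0 := by
  intro h
  have h1 := O.Qd
  have h2 := O.d2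
  rw [h, natDegree_zero] at h1
  omega

lemma One.cZ (O : One d P Q c U U₁) : c ∈ Zq P Q := Or.inl O.c0

lemma One.Zpos (O : One d P Q c U U₁) {z : ℂ} (hz : z ∉ Zq P Q) : 0 < infDist z (Zq P Q) :=
  ((Zq_fin O.N0 O.Q0).isClosed.notMem_iff_infDist_pos ⟨c, O.cZ⟩).1 hz

/-- The lower bound of a polynomial away from its roots. -/
lemma poly_low (G : ℂ[X]) {z u : ℂ} {θ : ℝ} (hθ : 0 < θ) (h : ∀ c ∈ G.roots, θ ≤ ‖z - c‖)
    (hu : ‖u - z‖ ≤ θ / 2) :
    ‖G.eval z‖ ≤ ‖G.eval u‖ * (1 + ‖u - z‖ / θ) ^ (2 * G.natDegree) := by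
  have h1 := Nl.poly_growth G (z := u) (θ := θ / 2) (by positivity) (fun c hc => by
    have h2 := h c hc
    have h3 : ‖z - c‖ ≤ ‖u - z‖ + ‖u - c‖ := by
      have h4 := norm_sub_le (u - c) (u - z)
      rw [sub_sub_sub_cancel_left] at h4
      linarith
    linarith) z
  refine h1.trans ?_
  rw [pow_mul]
  gcongr
  rw [norm_sub_rev z u]
  have h2 : ‖u - z‖ / (θ / 2) = 2 * (‖u - z‖ / θ) := by field_simp
  rw [h2]
  have h3 : 0 ≤ ‖u - z‖ / θ := by positivity
  nlinarith [sq_nonneg (‖u - z‖ / θ)]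

/-- The distortion near a point which is neither critical nor a pole. -/
lemma lin_rf (O : One d P Q c U U₁) {z w : ℂ} (hz : z ∉ Zq P Q) {κ : ℝ}
    (hκ : 2 ^ ((wr P Q).natDegree + 4 * Q.natDegree) ≤ κ) (hκ2 : 2 ≤ κ)
    (hw : κ * ‖w - z‖ ≤ infDist z (Zq P Q)) :
    ‖rf P Q w - rf P Q z‖ ≤ ‖(wr P Q).eval z / Q.eval z ^ 2‖ * ‖w - z‖ *
      (1 + κ * ‖w - z‖ / infDist z (Zq P Q)) := by
  have hθ := O.Zpos hz
  obtain ⟨θ, hθe⟩ : ∃ θ, θ = infDist z (Zq P Q) := ⟨_, rfl⟩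
  rw [← hθe] at hθ hw ⊢
  have hQz : Q.eval z ≠ 0 := fun h => hz (Or.inr h)
  have hroot1 : ∀ c ∈ (wr P Q).roots, θ ≤ ‖z - c‖ := by
    intro c' hc'
    have h1 : c' ∈ Zq P Q := Or.inl ((mem_roots O.N0).1 hc')
    rw [hθe, ← dist_eq_norm]
    exact infDist_le_dist_of_mem h1
  have hroot2 : ∀ c ∈ Q.roots, θ ≤ ‖z - c‖ := by
    intro c' hc'
    have h1 : c' ∈ Zq P Q := Or.inr ((mem_roots O.Q0).1 hc')
    rw [hθe, ← dist_eq_norm]
    exact infDist_le_dist_of_mem h1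
  obtain ⟨s, hs⟩ : ∃ s, s = ‖w - z‖ / θ := ⟨_, rfl⟩
  have hs0 : 0 ≤ s := by rw [hs]; positivity
  have hκs : κ * s ≤ 1 := by
    rw [hs, mul_div_assoc', div_le_one hθ]
    exact hw
  have hs2 : s ≤ 1 / 2 := by nlinarith
  have hwz : ‖w - z‖ = s * θ := by rw [hs]; field_simp
  have hder : ∀ u ∈ segment ℝ z w, DifferentiableAt ℂ (rf P Q) u ∧ ‖deriv (rf P Q) u‖ ≤
      ‖(wr P Q).eval z / Q.eval z ^ 2‖ * (1 + κ * ‖w - z‖ / θ) := by
    intro u hu
    have h1 : ‖u - z‖ ≤ ‖w - z‖ := by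
      have h2 : u ∈ closedBall z ‖w - z‖ := by
        apply (convex_closedBall z ‖w - z‖).segment_subset _ _ hu
        · exact mem_closedBall_self (norm_nonneg _)
        · rw [mem_closedBall, dist_eq_norm]
      rwa [mem_closedBall, dist_eq_norm] at h2
    have hus : ‖u - z‖ / θ ≤ s := by rw [hs]; gcongr
    have hu2 : ‖u - z‖ ≤ θ / 2 := by
      rw [hwz] at h1
      nlinarith
    have e1 := Nl.poly_growth (wr P Q) hθ hroot1 u
    have e2 := poly_low Q hθ hroot2 hu2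
    have e1' : ‖(wr P Q).eval u‖ ≤ ‖(wr P Q).eval z‖ * (1 + s) ^ (wr P Q).natDegree :=
      e1.trans (by gcongr)
    have e2' : ‖Q.eval z‖ ≤ ‖Q.eval u‖ * (1 + s) ^ (2 * Q.natDegree) := e2.trans (by gcongr)
    have hQz0 : 0 < ‖Q.eval z‖ := norm_pos_iff.2 hQz
    have hQu : Q.eval u ≠ 0 := by
      intro h0
      rw [h0, norm_zero, zero_mul] at e2'
      linarith
    have hQu0 : 0 < ‖Q.eval u‖ := norm_pos_iff.2 hQu
    refine ⟨(rf_hasDerivAt hQu).differentiableAt, ?_⟩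
    rw [(rf_hasDerivAt hQu).deriv, norm_div, norm_div, norm_pow, norm_pow]
    have h5 : (1 + s) ^ ((wr P Q).natDegree + 4 * Q.natDegree) ≤ 1 + κ * ‖w - z‖ / θ := by
      calc (1 + s) ^ ((wr P Q).natDegree + 4 * Q.natDegree)
          ≤ 1 + (2 ^ ((wr P Q).natDegree + 4 * Q.natDegree) - 1) * s :=
            Nl.pow_one_add_le hs0 (by linarith) _
        _ ≤ 1 + κ * s := by
            gcongr
            linarith
        _ = _ := by rw [hs]; ring
    have h6 : ‖Q.eval z‖ ^ 2 ≤ ‖Q.eval u‖ ^ 2 * (1 + s) ^ (4 * Q.natDegree) := by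
      calc ‖Q.eval z‖ ^ 2 ≤ (‖Q.eval u‖ * (1 + s) ^ (2 * Q.natDegree)) ^ 2 := by gcongr
        _ = _ := by rw [mul_pow, ← pow_mul]; congr 2; ring
    refine le_trans ?_ (mul_le_mul_of_nonneg_left h5 (by positivity))
    rw [div_le_iff₀ (by positivity), pow_add]
    calc ‖(wr P Q).eval u‖ ≤ ‖(wr P Q).eval z‖ * (1 + s) ^ (wr P Q).natDegree := e1'
      _ = ‖(wr P Q).eval z‖ / ‖Q.eval z‖ ^ 2 * (1 + s) ^ (wr P Q).natDegree *
          ‖Q.eval z‖ ^ 2 := by field_simp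
      _ ≤ ‖(wr P Q).eval z‖ / ‖Q.eval z‖ ^ 2 * (1 + s) ^ (wr P Q).natDegree *
          (‖Q.eval u‖ ^ 2 * (1 + s) ^ (4 * Q.natDegree)) := by gcongr
      _ = _ := by ring
  have h1 := (convex_segment z w).norm_image_sub_le_of_norm_deriv_le
    (f := rf P Q) (fun u hu => (hder u hu).1) (fun u hu => (hder u hu).2)
    (left_mem_segment ℝ z w) (right_mem_segment ℝ z w)
  calc ‖rf P Q w - rf P Q z‖ ≤ _ := h1
    _ = _ := by ring

/-- Near the free critical point. -/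
lemma One.near (O : One d P Q c U U₁) : ∃ g h : ℂ[X], wr P Q = (X - C c) * g ∧ g.eval c ≠ 0 ∧
    P - C (rf P Q c) * Q = (X - C c) ^ 2 * h := by
  have hQc : Q.eval c ≠ 0 := O.qorb 0
  obtain ⟨g, hg1, hg2⟩ := exists_eq_pow_rootMultiplicity_mul_and_not_dvd _ O.N0 c
  rw [O.cm, pow_one] at hg1
  have hPc : P.eval c = rf P Q c * Q.eval c := by
    unfold rf
    field_simp
  obtain ⟨h₁, hh₁⟩ : (X - C c) ∣ P - C (rf P Q c) * Q := by
    rw [dvd_iff_isRoot, IsRoot.def]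
    simp [hPc]
  have h0 : h₁.eval c = 0 := by
    have h2 := congrArg (fun p => (derivative p).eval c) hh₁
    simp only [derivative_sub, derivative_mul, derivative_C, zero_mul, zero_add,
      Polynomial.eval_sub, Polynomial.eval_mul, Polynomial.eval_add, Polynomial.eval_C,
      derivative_X, Polynomial.eval_X, sub_self, sub_zero, one_mul,
      add_zero] at h2
    have h3 := O.c0
    simp only [wr, Polynomial.eval_sub, Polynomial.eval_mul] at h3
    rw [← h2]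
    have h4 : Q.eval c * ((derivative P).eval c - rf P Q c * (derivative Q).eval c) = 0 := by
      rw [hPc] at h3
      linear_combination h3
    rcases mul_eq_zero.1 h4 with h | h
    · exact absurd h hQc
    · exact h
  obtain ⟨h, hh⟩ := dvd_iff_isRoot.2 h0
  refine ⟨g, h, hg1, fun h0 => hg2 (dvd_iff_isRoot.2 h0), ?_⟩
  rw [hh₁, hh]
  ring

lemma One.hdist (O : One d P Q c U U₁) : ∀ᶠ z in 𝓝 c, ‖z - c‖ ≤ infDist z (Zq P Q) := by
  have hfin : ((Zq P Q) \ {c}).Finite := (Zq_fin O.N0 O.Q0).subset sdiff_subset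
  have h1 : ∀ᶠ z in 𝓝 c, ∀ c' ∈ (Zq P Q) \ {c}, ‖z - c‖ ≤ ‖z - c'‖ := by
    rw [eventually_all_finite hfin]
    intro c' hc'
    have h2 : 0 < ‖c - c'‖ := by
      rw [norm_pos_iff, sub_ne_zero]
      exact fun h => hc'.2 h.symm
    have h3 : ContinuousAt (fun z : ℂ => ‖z - c'‖ - ‖z - c‖) c := by fun_prop
    have h4 : ∀ᶠ z in 𝓝 c, 0 < ‖z - c'‖ - ‖z - c‖ := by
      apply h3.eventually_const_lt
      change 0 < ‖c - c'‖ - ‖c - c‖
      rw [sub_self, norm_zero, sub_zero]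
      exact h2
    filter_upwards [h4] with z hz
    linarith
  filter_upwards [h1] with z hz
  rw [le_infDist ⟨c, O.cZ⟩]
  intro y hy
  rw [dist_eq_norm]
  by_cases hyz : y = c
  · rw [hyz]
  · exact hz y ⟨hy, hyz⟩

lemma rf_continuousAt {z : ℂ} (h : Q.eval z ≠ 0) :
    ContinuousAt (fun z => ‖(wr P Q).eval z / Q.eval z ^ 2‖) z := by
  refine ContinuousAt.norm (ContinuousAt.div (wr P Q).continuous.continuousAt ?_
    (pow_ne_zero 2 h))
  exact (Q.continuous.continuousAt).pow 2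

/-- Values near the critical value, and the derivative near the critical point. -/
theorem One.val (O : One d P Q c U U₁) : ∃ κ : ℝ, 1 ≤ κ ∧ ∀ z ∈ KR P Q U,
    ‖rf P Q z - rf P Q c‖ ≤ κ * (‖(wr P Q).eval z / Q.eval z ^ 2‖ * infDist z (Zq P Q)) ∧
    ‖(wr P Q).eval z / Q.eval z ^ 2‖ ≤ κ * infDist z (Zq P Q) := by
  have hKU : KR P Q U ⊆ closure U := fun z hz => subset_closure (KR_sub 0 hz)
  obtain ⟨κ, hκ⟩ : ∃ κ : ℝ, ∀ z ∈ KR P Q U,
      ‖rf P Q z - rf P Q c‖ ≤ κ * (‖(wr P Q).eval z / Q.eval z ^ 2‖ * infDist z (Zq P Q)) ∧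
      ‖(wr P Q).eval z / Q.eval z ^ 2‖ ≤ κ * infDist z (Zq P Q) := by
    refine O.trap.kcpt.induction_on (p := fun s => ∃ κ : ℝ, ∀ z ∈ s,
      ‖rf P Q z - rf P Q c‖ ≤ κ * (‖(wr P Q).eval z / Q.eval z ^ 2‖ * infDist z (Zq P Q)) ∧
      ‖(wr P Q).eval z / Q.eval z ^ 2‖ ≤ κ * infDist z (Zq P Q)) ?_ ?_ ?_ ?_
    · exact ⟨0, fun z hz => absurd hz (Set.notMem_empty z)⟩
    · rintro s t hst ⟨C, hC⟩
      exact ⟨C, fun z hz => hC z (hst hz)⟩
    · rintro s t ⟨C, hC⟩ ⟨C', hC'⟩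
      refine ⟨max C C', fun z hz => ?_⟩
      have h1 : 0 ≤ infDist z (Zq P Q) := infDist_nonneg
      have h0 : 0 ≤ ‖(wr P Q).eval z / Q.eval z ^ 2‖ * infDist z (Zq P Q) :=
        mul_nonneg (norm_nonneg _) infDist_nonneg
      rcases hz with hz | hz
      · exact ⟨(hC z hz).1.trans (by gcongr; exact le_max_left _ _),
          (hC z hz).2.trans (by gcongr; exact le_max_left _ _)⟩
      · exact ⟨(hC' z hz).1.trans (by gcongr; exact le_max_right _ _),
          (hC' z hz).2.trans (by gcongr; exact le_max_right _ _)⟩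
    · intro z₀ hz₀
      have hQz₀ : Q.eval z₀ ≠ 0 := O.q _ (hKU hz₀)
      have hQev : ∀ᶠ z in 𝓝 z₀, Q.eval z ≠ 0 := Q.continuous.continuousAt.eventually_ne hQz₀
      by_cases h0 : (wr P Q).eval z₀ = 0
      · have hz₀c : z₀ = c := O.w _ (hKU hz₀) h0
        rw [hz₀c] at hQz₀ hQev ⊢
        obtain ⟨g, h, hg, hg0, hh⟩ := O.near
        have hcont : ContinuousAt (fun z => ‖h.eval z * Q.eval z / g.eval z‖) c := by
          refine ContinuousAt.norm (ContinuousAt.div ?_ ?_ hg0)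
          · exact (h.continuous.mul Q.continuous).continuousAt
          · exact g.continuous.continuousAt
        have hcont2 : ContinuousAt (fun z => ‖g.eval z / Q.eval z ^ 2‖) c := by
          refine ContinuousAt.norm (ContinuousAt.div g.continuous.continuousAt ?_
            (pow_ne_zero 2 hQz₀))
          exact (Q.continuous.continuousAt).pow 2
        obtain ⟨C, hC⟩ : ∃ C, C = ‖h.eval c * Q.eval c / g.eval c‖ +
          ‖g.eval c / Q.eval c ^ 2‖ + 1 := ⟨_, rfl⟩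
        have hn1 := norm_nonneg (h.eval c * Q.eval c / g.eval c)
        have hn2 := norm_nonneg (g.eval c / Q.eval c ^ 2)
        have hev : ∀ᶠ z in 𝓝 c, ‖h.eval z * Q.eval z / g.eval z‖ < C :=
          hcont.eventually_lt_const (by rw [hC]; linarith)
        have hev2 : ∀ᶠ z in 𝓝 c, ‖g.eval z / Q.eval z ^ 2‖ < C :=
          hcont2.eventually_lt_const (by rw [hC]; linarith)
        have hg1 : ∀ᶠ z in 𝓝 c, g.eval z ≠ 0 := g.continuous.continuousAt.eventually_ne hg0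
        have hC0 : 0 ≤ C := by rw [hC]; positivity
        refine ⟨{z | ((‖z - c‖ ≤ infDist z (Zq P Q) ∧ ‖h.eval z * Q.eval z / g.eval z‖ < C) ∧
          (‖g.eval z / Q.eval z ^ 2‖ < C ∧ g.eval z ≠ 0)) ∧ Q.eval z ≠ 0},
          mem_nhdsWithin_of_mem_nhds (((O.hdist.and hev).and (hev2.and hg1)).and hQev), C, ?_⟩
        rintro z ⟨⟨⟨h1, h2⟩, h3, h4⟩, h5⟩
        have e1 : (wr P Q).eval z = (z - c) * g.eval z := by
          have := congrArg (fun p => p.eval z) hg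
          simpa using this
        have e2 : P.eval z - rf P Q c * Q.eval z = (z - c) ^ 2 * h.eval z := by
          have := congrArg (fun p => p.eval z) hh
          simpa using this
        have e3 : rf P Q z - rf P Q c = (z - c) ^ 2 * h.eval z / Q.eval z := by
          rw [← e2]
          unfold rf
          field_simp
        have hQ0 : 0 < ‖Q.eval z‖ := norm_pos_iff.2 h5
        have hg0' : 0 < ‖g.eval z‖ := norm_pos_iff.2 h4
        have hI : 0 ≤ infDist z (Zq P Q) := infDist_nonneg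
        have e4 : ‖(wr P Q).eval z / Q.eval z ^ 2‖ = ‖z - c‖ * (‖g.eval z‖ / ‖Q.eval z‖ ^ 2) := by
          rw [e1, norm_div, norm_mul, norm_pow]
          ring
        constructor
        · rw [e3, e4, norm_div, norm_mul, norm_pow]
          rw [norm_div, norm_mul, div_lt_iff₀ hg0'] at h2
          calc ‖z - c‖ ^ 2 * ‖h.eval z‖ / ‖Q.eval z‖
              = ‖z - c‖ * ‖z - c‖ * (‖h.eval z‖ * ‖Q.eval z‖) / ‖Q.eval z‖ ^ 2 := by
                field_simp
            _ ≤ ‖z - c‖ * infDist z (Zq P Q) * (C * ‖g.eval z‖) / ‖Q.eval z‖ ^ 2 := by gcongr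
            _ = _ := by ring
        · rw [e4]
          rw [norm_div, norm_pow] at h3
          calc ‖z - c‖ * (‖g.eval z‖ / ‖Q.eval z‖ ^ 2) ≤ infDist z (Zq P Q) * C := by gcongr
            _ = _ := mul_comm _ _
      · have hzZ : z₀ ∉ Zq P Q := by
          rintro (h | h)
          · exact h0 h
          · exact hQz₀ h
        have h1 := O.Zpos hzZ
        have h1' : ‖(wr P Q).eval z₀ / Q.eval z₀ ^ 2‖ ≠ 0 :=
          norm_ne_zero_iff.2 (div_ne_zero h0 (pow_ne_zero 2 hQz₀))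
        have h2 : ‖(wr P Q).eval z₀ / Q.eval z₀ ^ 2‖ * infDist z₀ (Zq P Q) ≠ 0 :=
          mul_ne_zero h1' h1.ne'
        have hcE : ContinuousAt (fun z => ‖(wr P Q).eval z / Q.eval z ^ 2‖) z₀ :=
          rf_continuousAt hQz₀
        have hcI : ContinuousAt (fun z => infDist z (Zq P Q)) z₀ :=
          (continuous_infDist_pt _).continuousAt
        have hc1 : ContinuousAt (fun z => ‖(wr P Q).eval z / Q.eval z ^ 2‖ *
            infDist z (Zq P Q)) z₀ := hcE.mul hcI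
        have hc2 : ContinuousAt (fun z => ‖rf P Q z - rf P Q c‖ /
            (‖(wr P Q).eval z / Q.eval z ^ 2‖ * infDist z (Zq P Q))) z₀ := by
          refine ContinuousAt.div ?_ hc1 h2
          exact ((rf_contAt hQz₀).sub continuousAt_const).norm
        have hc3 : ContinuousAt (fun z => ‖(wr P Q).eval z / Q.eval z ^ 2‖ /
            infDist z (Zq P Q)) z₀ := hcE.div hcI h1.ne'
        obtain ⟨C, hC⟩ : ∃ C, C = ‖rf P Q z₀ - rf P Q c‖ /
            (‖(wr P Q).eval z₀ / Q.eval z₀ ^ 2‖ * infDist z₀ (Zq P Q)) +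
            ‖(wr P Q).eval z₀ / Q.eval z₀ ^ 2‖ / infDist z₀ (Zq P Q) + 1 := ⟨_, rfl⟩
        have hn1 : 0 ≤ ‖rf P Q z₀ - rf P Q c‖ /
            (‖(wr P Q).eval z₀ / Q.eval z₀ ^ 2‖ * infDist z₀ (Zq P Q)) := by positivity
        have hn2 : 0 ≤ ‖(wr P Q).eval z₀ / Q.eval z₀ ^ 2‖ / infDist z₀ (Zq P Q) := by
          positivity
        have h3 : ∀ᶠ z in 𝓝 z₀, ‖rf P Q z - rf P Q c‖ /
            (‖(wr P Q).eval z / Q.eval z ^ 2‖ * infDist z (Zq P Q)) < C :=
          hc2.eventually_lt_const (by rw [hC]; linarith)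
        have h3' : ∀ᶠ z in 𝓝 z₀, ‖(wr P Q).eval z / Q.eval z ^ 2‖ /
            infDist z (Zq P Q) < C :=
          hc3.eventually_lt_const (by rw [hC]; linarith)
        have h4 : ∀ᶠ z in 𝓝 z₀, ‖(wr P Q).eval z / Q.eval z ^ 2‖ *
            infDist z (Zq P Q) ≠ 0 := hc1.eventually_ne h2
        refine ⟨_, mem_nhdsWithin_of_mem_nhds ((h3.and h3').and h4), C, ?_⟩
        rintro z ⟨⟨h5, h5'⟩, h6⟩
        have h8 : 0 < infDist z (Zq P Q) :=
          lt_of_le_of_ne infDist_nonneg (Ne.symm (right_ne_zero_of_mul h6))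
        have h7 : 0 < ‖(wr P Q).eval z / Q.eval z ^ 2‖ * infDist z (Zq P Q) :=
          lt_of_le_of_ne (mul_nonneg (norm_nonneg _) infDist_nonneg) (Ne.symm h6)
        rw [div_lt_iff₀ h7] at h5
        rw [div_lt_iff₀ h8] at h5'
        exact ⟨h5.le, h5'.le⟩
  refine ⟨1 + |κ|, by have := abs_nonneg κ; linarith, fun z hz => ?_⟩
  have h1 := hκ z hz
  have h2 : κ ≤ 1 + |κ| := by have := le_abs_self κ; linarith
  have h3 : 0 ≤ infDist z (Zq P Q) := infDist_nonneg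
  exact ⟨h1.1.trans (by gcongr), h1.2.trans (by gcongr)⟩

end Pool.Agent.Zk29.Hy
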