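import Pool.Agent.Zk29.Hy.B8

/-!
# The bounds for the derivatives and for the recurrence
-/

set_option autoImplicit false
open Set Filter Topology Metric Polynomial MeasureTheory
open scoped OnePoint ENNReal

namespace Pool.Agent.Zk29.Hy

open Pool.Agent.H792R2.CE Pool.Agent.H792R2.CE.C2x Pool.Agent.Zk29.Rat
open Pool.Agent.Helper114.Herman Pool.Agent.Zk29.Ab

variable {d : ℕ} {P Q : ℂ[X]} {c : ℂ} {U U₁ : Set ℂ}

/-- The free critical point is not hit by its orbit. -/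
theorem One.wne (O : One d P Q c U U₁) (j : ℕ) :
    (wr P Q).eval ((rf P Q)^[j] (rf P Q c)) ≠ 0 := by
  intro hj
  have h1 : (rf P Q)^[j] (rf P Q c) = c :=
    O.w _ (subset_closure (O.s (subset_closure (O.n _ (O.nv j))))) hj
  have h2 : (rf P Q)^[j + 1] c = c := by
    rw [Function.iterate_succ_apply]
    exact h1
  apply O.cn
  have hQ := O.qorb
  refine ⟨j + 1, by omega, c, fun i => ?_, ?_, ?_, ?_⟩
  · rw [iter_coe i fun l _ => hQ l]
    exact OnePoint.coe_ne_infty _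
  · rw [iter_coe _ fun l _ => hQ l, h2]
  · rw [rf_iter_deriv_add j 1 fun l _ => hQ l]
    have h3 : deriv ((rf P Q)^[1]) c = 0 := by
      have hQ0 : Q.eval c ≠ 0 := hQ 0
      rw [Function.iterate_one, (rf_hasDerivAt hQ0).deriv, O.c0, zero_div]
    rw [h3, mul_zero, norm_zero]
    exact one_pos
  · have h3 : (sph d P Q)^[j + 1] (c : OnePoint ℂ) = (c : OnePoint ℂ) := by
      rw [iter_coe _ fun l _ => hQ l, h2]
    have h4 : ∀ k : ℕ, (sph d P Q)^[(j + 1) * k] (c : OnePoint ℂ) = (c : OnePoint ℂ) := by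
      intro k
      rw [Function.iterate_mul]
      exact Function.iterate_fixed h3 k
    simp_rw [h4]
    exact tendsto_const_nhds

lemma One.vZ (O : One d P Q c U U₁) (j : ℕ) : (rf P Q)^[j] (rf P Q c) ∉ Zq P Q := by
  rintro (h | h)
  · exact O.wne j h
  · exact O.qv j h

/-- A deep return gives an attracting cycle. -/
theorem no_deep (O : One d P Q c U U₁) {κ : ℝ} (hκ : 2 ≤ κ) {m : ℕ} (hm : 1 ≤ m) :
    ¬ Deep (rf P Q) (rf P Q c) (fun j => infDist ((rf P Q)^[j] (rf P Q c)) (Zq P Q)) κ m := by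
  have hZ := O.vZ
  have hqv := O.qv
  have hnv : ¬ Att d P Q ((rf P Q c : ℂ) : OnePoint ℂ) := O.nv 0
  obtain ⟨v, hve⟩ : ∃ v, v = rf P Q c := ⟨_, rfl⟩
  rw [← hve] at hZ hqv hnv ⊢
  rintro ⟨ρ, hρ, hv, hx⟩
  obtain ⟨g, hg⟩ : ∃ g, g = (rf P Q)^[m] := ⟨_, rfl⟩
  -- the poles are avoided
  have hpole : ∀ x, ‖x - v‖ ≤ 2 * ρ → ∀ j < m, Q.eval ((rf P Q)^[j] x) ≠ 0 := by
    intro x hx' j hj h0
    have h1 := (hx x hx').1 j hj
    have h2 : infDist ((rf P Q)^[j] v) (Zq P Q) ≤ ‖(rf P Q)^[j] x - (rf P Q)^[j] v‖ := by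
      rw [← dist_eq_norm, dist_comm]
      exact infDist_le_dist_of_mem (Or.inr h0)
    have h3 : 0 < infDist ((rf P Q)^[j] v) (Zq P Q) := O.Zpos (hZ j)
    nlinarith
  have hdiff : ∀ x, ‖x - v‖ ≤ 2 * ρ → DifferentiableAt ℂ g x := fun x hx' => by
    rw [hg]
    exact rf_iter_diff m (hpole x hx')
  have hx2 : ∀ x, ‖x - v‖ ≤ 2 * ρ → ‖g x - g v‖ ≤ ρ / 4 := fun x hx' => by
    rw [hg]
    exact (hx x hx').2
  have hgv : ‖g v - v‖ ≤ ρ := by rw [hg]; exact hv
  have hder : ∀ x, ‖x - v‖ ≤ 3 / 2 * ρ → ‖deriv g x‖ ≤ 1 / 2 := by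
    intro x hx'
    have h1 : ∀ y ∈ closedBall x (ρ / 2), ‖y - v‖ ≤ 2 * ρ := by
      intro y hy
      rw [mem_closedBall, dist_eq_norm] at hy
      have := norm_add_le (y - x) (x - v)
      rw [sub_add_sub_cancel] at this
      linarith
    have h2 : ‖deriv (fun y => g y - g v) x‖ ≤ (ρ / 4) / (ρ / 2) := by
      apply Complex.norm_deriv_le_of_forall_mem_sphere_norm_le (by positivity)
      · apply DifferentiableOn.diffContOnCl
        rw [closure_ball _ (by positivity)]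
        intro y hy
        exact ((hdiff y (h1 y hy)).sub_const _).differentiableWithinAt
      · intro y hy
        exact hx2 y (h1 y (sphere_subset_closedBall hy))
    rw [deriv_sub_const] at h2
    refine h2.trans (le_of_eq ?_)
    field_simp
    norm_num
  have hlip : ∀ x y, ‖x - v‖ ≤ 3 / 2 * ρ → ‖y - v‖ ≤ 3 / 2 * ρ →
      ‖g y - g x‖ ≤ 1 / 2 * ‖y - x‖ := by
    intro x y hx' hy'
    refine (convex_closedBall v (3 / 2 * ρ)).norm_image_sub_le_of_norm_deriv_le (f := g)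
      (fun u hu => ?_) (fun u hu => ?_) ?_ ?_
    · rw [mem_closedBall, dist_eq_norm] at hu
      exact hdiff u (by linarith)
    · rw [mem_closedBall, dist_eq_norm] at hu
      exact hder u hu
    · rwa [mem_closedBall, dist_eq_norm]
    · rwa [mem_closedBall, dist_eq_norm]
  have hself : ∀ x, ‖x - v‖ ≤ 3 / 2 * ρ → ‖g x - v‖ ≤ 3 / 2 * ρ := by
    intro x hx'
    have h1 := hx2 x (by linarith)
    have h2 := norm_add_le (g x - g v) (g v - v)
    rw [sub_add_sub_cancel] at h2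
    linarith
  have hs1 : ∀ k, ‖g^[k] v - v‖ ≤ 3 / 2 * ρ := by
    intro k
    induction k with
    | zero =>
      rw [Function.iterate_zero_apply, sub_self, norm_zero]
      positivity
    | succ k ih =>
      rw [Function.iterate_succ_apply']
      exact hself _ ih
  have hs2 : ∀ k, ‖g^[k + 1] v - g^[k] v‖ ≤ ρ * (1 / 2) ^ k := by
    intro k
    induction k with
    | zero =>
      rw [pow_zero, mul_one, zero_add, Function.iterate_one, Function.iterate_zero_apply]
      exact hgv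
    | succ k ih =>
      have h1 := hlip _ _ (hs1 k) (hs1 (k + 1))
      rw [← Function.iterate_succ_apply' g, ← Function.iterate_succ_apply' g] at h1
      refine h1.trans ?_
      rw [pow_succ]
      linarith
  have hcau : CauchySeq (fun k => g^[k] v) :=
    cauchySeq_of_le_geometric (1 / 2) ρ (by norm_num) fun k => by
      rw [dist_eq_norm, norm_sub_rev]
      exact hs2 k
  obtain ⟨p, hp⟩ := cauchySeq_tendsto_of_complete hcau
  have hpv : ‖p - v‖ ≤ 3 / 2 * ρ := le_of_tendsto (hp.sub_const v).norm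
    (Eventually.of_forall fun k => hs1 k)
  have hgp : g p = p := by
    have h1 : Tendsto (fun k => g^[k + 1] v) atTop (𝓝 (g p)) := by
      simp_rw [Function.iterate_succ_apply']
      exact (hdiff p (by linarith)).continuousAt.tendsto.comp hp
    exact tendsto_nhds_unique h1 (hp.comp (tendsto_add_atTop_nat 1))
  have hgp' : (rf P Q)^[m] p = p := by rw [← hg]; exact hgp
  have hQp : ∀ i, Q.eval ((rf P Q)^[i] p) ≠ 0 := by
    intro i
    have h1 : (rf P Q)^[i % m] p = (rf P Q)^[i] p :=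
      Function.IsPeriodicPt.iterate_mod_apply hgp' i
    rw [← h1]
    exact hpole p (by linarith) _ (Nat.mod_lt _ (by omega))
  apply hnv
  refine ⟨m, by omega, p, fun i => ?_, ?_, ?_, ?_⟩
  · rw [iter_coe i fun j _ => hQp j]
    exact OnePoint.coe_ne_infty _
  · rw [iter_coe m fun j _ => hQp j, hgp']
  · rw [← hg]
    have := hder p hpv
    linarith
  · have h2 := ((OnePoint.continuous_coe (X := ℂ)).tendsto p).comp hp
    refine h2.congr fun k => ?_
    rw [iter_coe _ fun j _ => hqv j, Function.iterate_mul, ← hg]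
    rfl

/-- The system. -/
theorem sys_hy (O : One d P Q c U U₁) : ∃ κ : ℝ, 2 ≤ κ ∧
    (∀ j, EE P Q c j ≤ κ * infDist ((rf P Q)^[j] (rf P Q c)) (Zq P Q)) ∧
    Sys (rf P Q) (rf P Q c) (EE P Q c)
      (fun j => infDist ((rf P Q)^[j] (rf P Q c)) (Zq P Q)) κ := by
  obtain ⟨κ₀, hκ₀, hv⟩ := O.val
  have hK : ∀ j, (rf P Q)^[j] (rf P Q c) ∈ KR P Q U := fun j => O.kr (O.nv j)
  have h2 : (1 : ℝ) ≤ 2 ^ ((wr P Q).natDegree + 4 * Q.natDegree) := one_le_pow₀ (by norm_num)
  refine ⟨2 ^ ((wr P Q).natDegree + 4 * Q.natDegree) + κ₀, by linarith, fun j => ?_, ⟨by linarith,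
    fun j => ?_, fun j => O.Zpos (O.vZ j), fun j => ?_, fun j w hw => ?_⟩⟩
  · have h3 := (hv _ (hK j)).2
    refine h3.trans ?_
    have h5 : 0 ≤ infDist ((rf P Q)^[j] (rf P Q c)) (Zq P Q) := infDist_nonneg
    gcongr
    linarith
  · unfold EE
    exact norm_pos_iff.2 (div_ne_zero (O.wne j) (pow_ne_zero 2 (O.qv j)))
  · have h3 := (hv _ (hK j)).1
    rw [Function.iterate_succ_apply']
    refine h3.trans ?_
    have h5 : 0 ≤ ‖(wr P Q).eval ((rf P Q)^[j] (rf P Q c)) /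
        Q.eval ((rf P Q)^[j] (rf P Q c)) ^ 2‖ *
          infDist ((rf P Q)^[j] (rf P Q c)) (Zq P Q) :=
      mul_nonneg (norm_nonneg _) infDist_nonneg
    exact mul_le_mul_of_nonneg_right (by linarith) h5
  · rw [Function.iterate_succ_apply']
    exact lin_rf O (O.vZ j) (by linarith) (by linarith) hw

/-- The Cauchy estimate. -/
lemma One.cauchy {R : ℝ} (hUR : ∀ z ∈ U, ‖z‖ ≤ R)
    {v : ℂ} {N : ℕ} {s : ℝ} (hs : 0 < s)
    (h : R + 1 ≤ ‖deriv ((rf P Q)^[N]) v‖ * s) :
    ∃ y, ‖y - v‖ ≤ s ∧ y ∉ UR P Q U N := by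
  by_contra hcon
  push Not at hcon
  have h1 : ‖deriv ((rf P Q)^[N]) v‖ ≤ R / s := by
    apply Complex.norm_deriv_le_of_forall_mem_sphere_norm_le hs
    · apply DifferentiableOn.diffContOnCl
      rw [closure_ball _ hs.ne']
      intro y hy
      rw [mem_closedBall, dist_eq_norm] at hy
      exact (UR_diff (hcon y hy)).differentiableWithinAt
    · intro z hz
      rw [mem_sphere, dist_eq_norm] at hz
      have h2 : z ∈ UR P Q U (0 + N) := by
        rw [zero_add]
        exact hcon z hz.le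
      exact hUR _ (UR_add 0 N h2)
  rw [le_div_iff₀ hs] at h1
  linarith

/-- **The bound for the derivatives.** -/
theorem growth_hy (O : One d P Q c U U₁) (hna : ¬ Approx d P Q) :
    ∃ K : ℝ, ∀ N : ℕ, 2 ≤ N → ‖deriv ((rf P Q)^[N]) (rf P Q c)‖ ≤
      Real.exp (K * Real.log N ^ 2) := by
  obtain ⟨R, hR1, hUR⟩ : ∃ R : ℝ, 1 ≤ R ∧ U ⊆ ball 0 R := by
    obtain ⟨R, hR⟩ := O.trap.bdd.exists_norm_le
    refine ⟨|R| + 1, by have := abs_nonneg R; linarith, fun z hz => ?_⟩
    rw [mem_ball_zero_iff]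
    have := hR z hz
    have := le_abs_self R
    linarith
  have hUR' : ∀ z ∈ U, ‖z‖ ≤ R := fun z hz => (mem_ball_zero_iff.1 (hUR hz)).le
  have hR0 : 0 < R := by linarith
  by_cases hub : ∃ B : ℝ, ∀ N, ‖deriv ((rf P Q)^[N]) (rf P Q c)‖ ≤ B
  · obtain ⟨B, hB⟩ := hub
    exact Nl.bdd_quasi (B := max B 1) (le_max_right _ _) fun N => (hB N).trans (le_max_left _ _)
  push Not at hub
  have hleave : ∀ s : ℝ, 0 < s → ∃ y, ‖y - rf P Q c‖ < s ∧ ∃ N, y ∉ UR P Q U N := by
    intro s hs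
    obtain ⟨N, hN⟩ := hub ((R + 1) / (s / 2))
    rw [div_lt_iff₀ (by positivity)] at hN
    obtain ⟨y, hy, hyN⟩ := One.cauchy (P := P) (Q := Q) hUR' (by positivity : 0 < s / 2) hN.le
    exact ⟨y, by linarith, N, hyN⟩
  obtain ⟨κ, hκ2, -, S⟩ := sys_hy O
  obtain ⟨A, hA1, C⟩ := cl_hy O hna O.wne hleave hR0 hUR
  have hlog4 : 0 ≤ Real.log (4 * R) := Real.log_nonneg (by linarith)
  have hK : ∀ j, (rf P Q)^[j] (rf P Q c) ∈ KR P Q U := fun j => O.kr (O.nv j)
  have hKU : KR P Q U ⊆ closure U := fun z hz => subset_closure (KR_sub 0 hz)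
  obtain ⟨Θ, hΘ⟩ := O.trap.kcpt.exists_bound_of_continuousOn
    (f := fun z => infDist z (Zq P Q)) (continuous_infDist_pt _).continuousOn
  obtain ⟨Λ, hΛ⟩ := O.trap.kcpt.exists_bound_of_continuousOn
    (f := fun z => ‖(wr P Q).eval z / Q.eval z ^ 2‖) (fun z hz =>
      (rf_continuousAt (O.q z (hKU hz))).continuousWithinAt)
  have hball : ∀ j, ‖(rf P Q)^[j] (rf P Q c)‖ ≤ R := fun j => hUR' _ (KR_sub 0 (hK j))
  obtain ⟨K, hKK⟩ := quasi C S hA1 (by rw [Nat.cast_one]; linarith) (by linarith)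
    (fun j => by
      have h1 : ‖(rf P Q)^[j] (rf P Q c) - rf P Q c‖ ≤ 4 * R := by
        have h2 := norm_sub_le ((rf P Q)^[j] (rf P Q c)) (rf P Q c)
        have h3 := hball j
        have h4 := hball 0
        rw [Function.iterate_zero_apply] at h4
        linarith
      rcases eq_or_ne ((rf P Q)^[j] (rf P Q c)) (rf P Q c) with h0 | h0
      · rw [h0, sub_self, norm_zero, Real.log_zero]
        linarith
      · have h5 := Real.log_le_log (norm_pos_iff.2 (sub_ne_zero.2 h0)) h1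
        linarith)
    (Θ := max 1 Θ) (Λ := max 1 Λ) (C₁ := R + 1) (le_max_left _ _) (le_max_left _ _)
    (by linarith)
    (fun j => by
      have h1 := hΘ _ (hK j)
      rw [Real.norm_eq_abs] at h1
      exact (le_abs_self _).trans (h1.trans (le_max_right _ _)))
    (fun j => by
      have h1 := hΛ _ (hK j)
      rw [norm_norm] at h1
      exact h1.trans (le_max_right _ _))
    (fun N s _ hs h => by
      rw [O.DD_eq] at h
      exact One.cauchy hUR' hs h)
    (fun m hm => no_deep O hκ2 hm)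
  refine ⟨K, fun N hN => ?_⟩
  have := hKK N hN
  rwa [O.DD_eq] at this

/-- The recurrence bound of a system. -/
theorem rec_abs {f : ℂ → ℂ} {v : ℂ} {E θ : ℕ → ℝ} {κ : ℝ} (S : Sys f v E θ κ) {C : ℝ}
    (hC1 : 1 ≤ C) (hC : ∀ j, E j ≤ C * θ j) (hno : ∀ m, 1 ≤ m → ¬ Deep f v θ κ m) {K : ℝ}
    (hKb : ∀ N : ℕ, 2 ≤ N → DD E N ≤ Real.exp (K * Real.log N ^ 2)) :
    ∃ K : ℝ, ∀ N : ℕ, 2 ≤ N → Real.exp (-(K * Real.log N ^ 2)) ≤ θ N := by
  have hκ := S.hκ
  obtain ⟨B, hB1, hB⟩ : ∃ B : ℝ, 1 ≤ B ∧ ∀ l < 2, DD E l ≤ B := by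
    refine ⟨1 + DD E 1, ?_, ?_⟩
    · have := S.DD_pos 1
      linarith
    · intro l hl
      have h1 := S.DD_pos 1
      interval_cases l
      · rw [DD_zero]
        linarith
      · linarith
  have hl2 : 0 < Real.log 2 := Real.log_pos (by norm_num)
  refine ⟨|K| + (Real.log (16 * κ ^ 2 * C * B) + 1 ) / Real.log 2 ^ 2 + 2 / Real.log 2,
    fun N hN => ?_⟩
  have hN2 : (2 : ℝ) ≤ N := by exact_mod_cast hN
  have hlN : Real.log 2 ≤ Real.log N := Real.log_le_log (by norm_num) hN2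
  obtain ⟨G, hG⟩ : ∃ G, G = B * Real.exp (|K| * Real.log N ^ 2) := ⟨_, rfl⟩
  have hexp1 : 1 ≤ Real.exp (|K| * Real.log N ^ 2) := Real.one_le_exp (by positivity)
  have hDG : ∀ l ≤ N, DD E l ≤ G := by
    intro l hl
    rw [hG]
    rcases lt_or_ge l 2 with h | h
    · exact (hB l h).trans (le_mul_of_one_le_right (by linarith) hexp1)
    · have hl2' : (2 : ℝ) ≤ l := by exact_mod_cast h
      have h1 : Real.log l ≤ Real.log N := Real.log_le_log (by linarith) (by exact_mod_cast hl)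
      have h2 : 0 ≤ Real.log l := Real.log_nonneg (by linarith)
      calc _ ≤ Real.exp (K * Real.log l ^ 2) := hKb l h
        _ ≤ Real.exp (|K| * Real.log N ^ 2) := by
            apply Real.exp_le_exp.2
            have h3 := le_abs_self K
            calc K * Real.log l ^ 2 ≤ |K| * Real.log l ^ 2 := by gcongr
              _ ≤ _ := by gcongr
        _ ≤ B * Real.exp (|K| * Real.log N ^ 2) :=
            le_mul_of_one_le_left (Real.exp_pos _).le hB1
  obtain ⟨j, hj, hmin⟩ := Finset.exists_min_image (Finset.range (N + 1)) θ ⟨0, by simp⟩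
  rw [Finset.mem_range] at hj
  have hmin' : ∀ l ≤ N, θ j ≤ θ l := fun l hl => hmin l (Finset.mem_range.2 (by omega))
  have hθ := S.th j
  have hnot : ¬ (16 * κ ^ 2 * C * (N + 1) * G * θ j ≤ 1) := by
    intro hsm
    exact hno (j + 1) (by omega)
      (Nl.deep_of_close S hC1 hDG (by omega : j ≤ N) hmin' (hC j) hsm)
  push Not at hnot
  have h6 : θ j ≤ θ N := hmin' N le_rfl
  refine le_trans ?_ h6
  have hN1 : (N : ℝ) + 1 ≤ N ^ 2 := by nlinarith
  have hGe : 16 * κ ^ 2 * C * (N + 1) * G ≤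
      Real.exp ((|K| + (Real.log (16 * κ ^ 2 * C * B) + 1) / Real.log 2 ^ 2 + 2 / Real.log 2) *
        Real.log N ^ 2) := by
    have h7 : 0 < 16 * κ ^ 2 * C * B := by positivity
    have h7' : 1 ≤ 16 * κ ^ 2 * C * B := by
      have : 1 ≤ κ ^ 2 := one_le_pow₀ hκ
      have h8 := one_le_mul_of_one_le_of_one_le this hC1
      have h9 := one_le_mul_of_one_le_of_one_le h8 hB1
      nlinarith
    have h8 : Real.log (16 * κ ^ 2 * C * B) ≤
        (Real.log (16 * κ ^ 2 * C * B) + 1) / Real.log 2 ^ 2 * Real.log N ^ 2 := by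
      have h9 := Real.log_nonneg h7'
      rw [div_mul_eq_mul_div, le_div_iff₀ (by positivity)]
      have h10 : Real.log 2 ^ 2 ≤ Real.log N ^ 2 := by gcongr
      have h11 : 0 < Real.log 2 ^ 2 := by positivity
      nlinarith
    have h9 : 2 * Real.log N ≤ 2 / Real.log 2 * Real.log N ^ 2 := by
      rw [div_mul_eq_mul_div, le_div_iff₀ hl2]
      nlinarith
    calc 16 * κ ^ 2 * C * (N + 1) * G
        = (16 * κ ^ 2 * C * B) * (N + 1) * Real.exp (|K| * Real.log N ^ 2) := by rw [hG]; ring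
      _ ≤ (16 * κ ^ 2 * C * B) * N ^ 2 * Real.exp (|K| * Real.log N ^ 2) := by gcongr
      _ = Real.exp (Real.log (16 * κ ^ 2 * C * B)) * Real.exp (2 * Real.log N) *
          Real.exp (|K| * Real.log N ^ 2) := by
          rw [Real.exp_log h7]
          congr 2
          rw [show (2 : ℝ) * Real.log N = ((2 : ℕ) : ℝ) * Real.log N by norm_num,
            Real.exp_nat_mul, Real.exp_log (by linarith)]
      _ = Real.exp (Real.log (16 * κ ^ 2 * C * B) + 2 * Real.log N + |K| * Real.log N ^ 2) := by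
          rw [Real.exp_add, Real.exp_add]
      _ ≤ _ := by
          apply Real.exp_le_exp.2
          linarith
  rw [Real.exp_neg, inv_le_comm₀ (Real.exp_pos _) hθ]
  rw [inv_le_iff_one_le_mul₀ hθ]
  calc 1 ≤ 16 * κ ^ 2 * C * (N + 1) * G * θ j := hnot.le
    _ ≤ _ := by gcongr

/-- **The bound for the recurrence.** -/
theorem rec_hy (O : One d P Q c U U₁) (hna : ¬ Approx d P Q) :
    ∃ K : ℝ, ∀ N : ℕ, 2 ≤ N → Real.exp (-(K * Real.log N ^ 2)) ≤
      ‖(rf P Q)^[N] (rf P Q c) - c‖ := by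
  obtain ⟨κ, hκ2, hE, S⟩ := sys_hy O
  obtain ⟨K, hK⟩ := growth_hy O hna
  obtain ⟨K', hK'⟩ := rec_abs S (by linarith : 1 ≤ κ) hE (fun m hm => no_deep O hκ2 hm)
    (K := K) (fun N hN => by
      rw [O.DD_eq]
      exact hK N hN)
  refine ⟨K', fun N hN => (hK' N hN).trans ?_⟩
  rw [← dist_eq_norm]
  exact infDist_le_dist_of_mem O.cZ

end Pool.Agent.Zk29.Hy
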